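import Pool.Agent.Lib.MP_ca7d12_nt.V.MinkForms
import Pool.Agent.Lib.MP_ca7d12_nt.Defs

set_option autoImplicit false

namespace Pool.Agent.MP_ca7d12_nt

/-- Transference between dual systems of linear forms. -/
theorem transfer (A B : Matrix (Fin 3) (Fin 3) ℝ) (hAB : A.transpose * B = 1) (y : Fin 3 → ℤ)
    (hne : ∀ i, ∑ j, B i j * (y j : ℝ) ≠ 0) :
    markovMin A ^ 2 ≤ 64 * (|∏ i, ∑ j, B i j * (y j : ℝ)| * |A.det|) := by
  set b : Fin 3 → ℝ := fun i => ∑ j, B i j * (y j : ℝ) with hb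
  set β : ℝ := ∏ i, b i with hβ
  have hβ0 : β ≠ 0 := Finset.prod_ne_zero_iff.2 fun i _ => hne i
  have hdet : A.det * B.det = 1 := by
    have := congrArg Matrix.det hAB
    rwa [Matrix.det_mul, Matrix.det_transpose, Matrix.det_one] at this
  have hD : A.det ≠ 0 := left_ne_zero_of_mul (by rw [hdet]; exact one_ne_zero)
  set q : ℝ := |β| * |A.det| with hq
  have hq0 : 0 < q := mul_pos (abs_pos.2 hβ0) (abs_pos.2 hD)
  set R : ℝ := Real.sqrt (4 * q) with hR
  have hR0 : 0 < R := Real.sqrt_pos.2 (by positivity)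
  have hR2 : R ^ 2 = 4 * q := Real.sq_sqrt (by positivity)
  set T : Matrix (Fin 3) (Fin 3) ℝ := !![1, 1, 1; 1, -1, 0; 0, 1, -1] with hT
  have hTdet : T.det = 3 := by
    rw [hT, Matrix.det_fin_three]
    simp
    norm_num
  set A' : Matrix (Fin 3) (Fin 3) ℝ := T * (Matrix.diagonal b * A) with hA'
  have hA'det : A'.det = 3 * (β * A.det) := by
    rw [hA', Matrix.det_mul, Matrix.det_mul, Matrix.det_diagonal, hTdet]
  have habs : |A'.det| = 3 * q := by
    rw [hA'det, abs_mul, abs_mul, ← hq]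
    norm_num
  have hA'ne : A'.det ≠ 0 := by
    rw [hA'det]
    exact mul_ne_zero three_ne_zero (mul_ne_zero hβ0 hD)
  have htpos : ∀ i, 0 < (![1, R, R] : Fin 3 → ℝ) i := by
    intro i
    fin_cases i
    · exact one_pos
    · exact hR0
    · exact hR0
  obtain ⟨x, hx0, hx⟩ := minkowski_forms A' hA'ne ![1, R, R] htpos (by
      rw [habs, Fin.prod_univ_three]
      have : (![1, R, R] : Fin 3 → ℝ) 0 * (![1, R, R] : Fin 3 → ℝ) 1 *
          (![1, R, R] : Fin 3 → ℝ) 2 = R ^ 2 := by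
        simp
        ring
      rw [this, hR2]
      linarith)
  set z : Fin 3 → ℝ := fun i => b i * ∑ j, A i j * (x j : ℝ) with hz
  have hform : ∀ i, ∑ j, A' i j * (x j : ℝ) = T i 0 * z 0 + T i 1 * z 1 + T i 2 * z 2 := by
    intro i
    have hdm : ∀ l j, (Matrix.diagonal b * A) l j = b l * A l j := fun l j =>
      Matrix.diagonal_mul b A l j
    have hent' : ∀ j, A' i j = T i 0 * (b 0 * A 0 j) + T i 1 * (b 1 * A 1 j) +
        T i 2 * (b 2 * A 2 j) := by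
      intro j
      rw [hA', Matrix.mul_apply, Fin.sum_univ_three, hdm, hdm, hdm]
    simp only [hent', hz, Fin.sum_univ_three]
    ring
  have h0 := hx 0
  have h1 := hx 1
  have h2 := hx 2
  rw [hform] at h0 h1 h2
  have e0 : T 0 0 * z 0 + T 0 1 * z 1 + T 0 2 * z 2 = z 0 + z 1 + z 2 := by
    simp [hT]
  have e1 : T 1 0 * z 0 + T 1 1 * z 1 + T 1 2 * z 2 = z 0 - z 1 := by
    simp [hT]
    ring
  have e2 : T 2 0 * z 0 + T 2 1 * z 1 + T 2 2 * z 2 = z 1 - z 2 := by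
    simp [hT]
    ring
  rw [e0] at h0
  rw [e1] at h1
  rw [e2] at h2
  have h1' : |z 0 - z 1| < R := h1
  have h2' : |z 1 - z 2| < R := h2
  have h0' : |z 0 + z 1 + z 2| < 1 := h0
  have hent : ∀ l j, A 0 l * B 0 j + A 1 l * B 1 j + A 2 l * B 2 j =
      (1 : Matrix (Fin 3) (Fin 3) ℝ) l j := by
    intro l j
    rw [← hAB, Matrix.mul_apply, Fin.sum_univ_three]
    rfl
  have hsum : z 0 + z 1 + z 2 = ((x 0 * y 0 + x 1 * y 1 + x 2 * y 2 : ℤ) : ℝ) := by
    have a00 := hent 0 0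
    have a01 := hent 0 1
    have a02 := hent 0 2
    have a10 := hent 1 0
    have a11 := hent 1 1
    have a12 := hent 1 2
    have a20 := hent 2 0
    have a21 := hent 2 1
    have a22 := hent 2 2
    simp only [Matrix.one_apply_eq] at a00 a11 a22
    rw [Matrix.one_apply_ne (by decide)] at a01 a02 a10 a12 a20 a21
    simp only [hz, hb, Fin.sum_univ_three]
    push_cast
    linear_combination (x 0 : ℝ) * (y 0 : ℝ) * a00 + (x 0 : ℝ) * (y 1 : ℝ) * a01 +
      (x 0 : ℝ) * (y 2 : ℝ) * a02 + (x 1 : ℝ) * (y 0 : ℝ) * a10 + (x 1 : ℝ) * (y 1 : ℝ) * a11 +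
      (x 1 : ℝ) * (y 2 : ℝ) * a12 + (x 2 : ℝ) * (y 0 : ℝ) * a20 + (x 2 : ℝ) * (y 1 : ℝ) * a21 +
      (x 2 : ℝ) * (y 2 : ℝ) * a22
  have hzero : z 0 + z 1 + z 2 = 0 := by
    rw [hsum] at h0' ⊢
    have h3 : |x 0 * y 0 + x 1 * y 1 + x 2 * y 2| < 1 := by exact_mod_cast h0'
    have h4 := Int.abs_lt_one_iff.1 h3
    exact_mod_cast h4
  rw [abs_lt] at h1' h2'
  have b0 : |z 0| ≤ R := by
    rw [abs_le]
    constructor <;> linarith [h1'.1, h1'.2, h2'.1, h2'.2]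
  have b1 : |z 1| ≤ R := by
    rw [abs_le]
    constructor <;> linarith [h1'.1, h1'.2, h2'.1, h2'.2]
  have b2 : |z 2| ≤ R := by
    rw [abs_le]
    constructor <;> linarith [h1'.1, h1'.2, h2'.1, h2'.2]
  have hprod : |∏ i, z i| ≤ R ^ 3 := by
    rw [Fin.prod_univ_three, abs_mul, abs_mul]
    calc |z 0| * |z 1| * |z 2| ≤ R * R * R :=
          mul_le_mul (mul_le_mul b0 b1 (abs_nonneg _) hR0.le) b2 (abs_nonneg _) (by positivity)
      _ = R ^ 3 := by ring
  have hzprod : ∏ i, z i = β * ∏ i, ∑ j, A i j * (x j : ℝ) := by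
    rw [hz, hβ, Finset.prod_mul_distrib]
  have hmin : markovMin A ≤ |(∏ i : Fin 3, ∑ j : Fin 3, A i j * (x j : ℝ)) / A.det| := by
    refine csInf_le ⟨0, ?_⟩ ⟨x, hx0, rfl⟩
    rintro r ⟨w, -, rfl⟩
    exact abs_nonneg _
  have hmin0 : 0 ≤ markovMin A := by
    refine Real.sInf_nonneg ?_
    rintro r ⟨w, -, rfl⟩
    exact abs_nonneg _
  have hval : |(∏ i : Fin 3, ∑ j : Fin 3, A i j * (x j : ℝ)) / A.det| ≤ 4 * R := by
    have k1 : |(∏ i : Fin 3, ∑ j : Fin 3, A i j * (x j : ℝ)) / A.det| * q = |∏ i, z i| := by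
      rw [hzprod, abs_mul, abs_div, hq]
      have := abs_pos.2 hD
      field_simp
    have k2 : |(∏ i : Fin 3, ∑ j : Fin 3, A i j * (x j : ℝ)) / A.det| * q ≤ 4 * R * q := by
      rw [k1]
      refine hprod.trans (le_of_eq ?_)
      calc R ^ 3 = R * R ^ 2 := by ring
        _ = 4 * R * q := by rw [hR2]; ring
    exact le_of_mul_le_mul_right k2 hq0
  calc markovMin A ^ 2 ≤ (4 * R) ^ 2 := pow_le_pow_left₀ hmin0 (hmin.trans hval) 2
    _ = 64 * q := by rw [mul_pow, hR2]; ring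

end Pool.Agent.MP_ca7d12_nt
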