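import Pool.Agent.Lib.MP_ca7d12_nt.V.DualKey
import Pool.Agent.Lib.MP_ca7d12_nt.V.Transfer
import Pool.Agent.Lib.MP_ca7d12_nt.W.MainW

set_option autoImplicit false

namespace Pool.Agent.MP_ca7d12_nt

open NumberField

namespace DualMain

variable {K : Type*} [Field K] [NumberField K]

theorem li_scale (α : Fin 3 → K) (hα : LinearIndependent ℚ α) (lam : K) (hlam : lam ≠ 0)
    (α' : Fin 3 → 𝓞 K) (hα' : ∀ j, (α' j : K) = lam * α j) :
    LinearIndependent ℚ (fun j => (α' j : K)) := by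
  have h1 : (fun j => (α' j : K)) = (LinearMap.mulLeft ℚ lam) ∘ α := by
    funext j
    exact hα' j
  rw [h1]
  refine hα.map' _ ?_
  rw [LinearMap.ker_eq_bot]
  intro x y hxy
  exact mul_left_cancel₀ hlam hxy

/-- The level is a divisor of every stabilising integer. -/
theorem level_min (α : Fin 3 → K) (n : ℕ) (hlev : IsLevel K α n) (lam : K) (hlam : lam ≠ 0)
    (α' : Fin 3 → 𝓞 K) (hα' : ∀ j, (α' j : K) = lam * α j) (I : Ideal (𝓞 K))
    (hspan : Ideal.span (Set.range α') = I)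
    (hclo : ∀ y ∈ I, (n : 𝓞 K) * y ∈ AddSubgroup.closure (Set.range α')) (a : ℤ)
    (ha : ∀ y ∈ I, (a : 𝓞 K) * y ∈ AddSubgroup.closure (Set.range α')) : (n : ℤ) ∣ a := by
  obtain ⟨hn0, hst, hmin⟩ := hlev
  set n' : ℕ := Int.gcd a n with hn'
  have hn'0 : n' ≠ 0 := by
    rw [hn', Ne, Int.gcd_eq_zero_iff]
    rintro ⟨-, h⟩
    exact hn0 (by exact_mod_cast h)
  have hmem : ∀ y ∈ I, (n' : 𝓞 K) * y ∈ AddSubgroup.closure (Set.range α') := by
    intro y hy
    have h1 : (n' : ℤ) = a * Int.gcdA a n + n * Int.gcdB a n := Int.gcd_eq_gcd_ab a n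
    have h2 : (n' : 𝓞 K) = (a : 𝓞 K) * ((Int.gcdA a n : ℤ) : 𝓞 K) +
        (n : 𝓞 K) * ((Int.gcdB a n : ℤ) : 𝓞 K) := by
      have := congrArg (fun z : ℤ => (z : 𝓞 K)) h1
      push_cast at this ⊢
      exact this
    have h3 : (n' : 𝓞 K) * y = (Int.gcdA a n) • ((a : 𝓞 K) * y) +
        (Int.gcdB a n) • ((n : 𝓞 K) * y) := by
      rw [zsmul_eq_mul, zsmul_eq_mul, h2]
      ring
    rw [h3]
    exact AddSubgroup.add_mem _ (AddSubgroup.zsmul_mem _ (ha y hy) _)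
      (AddSubgroup.zsmul_mem _ (hclo y hy) _)
  have hst' : StableUnder K α n' := by
    intro z x hx
    obtain ⟨x', hx', hxx⟩ := MainT.up α α' lam hα' x hx
    have hx'I : x' ∈ I := MainW.closure_le α' I hspan hx'
    obtain ⟨x₀, hx₀, hxx₀⟩ := MainT.down α α' lam hα' _ (hmem _ (I.mul_mem_left z hx'I))
    have h1 : (n' : K) * (z : K) * x = x₀ := by
      apply mul_left_cancel₀ hlam
      rw [← hxx₀, MainT.coe_mul', MainT.coe_mul', MainT.coe_nat, hxx]
      ring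
    rw [h1]
    exact hx₀
  have hle := hmin n' hn'0 hst'
  have hdn : (n' : ℤ) ∣ (n : ℤ) := Int.gcd_dvd_right _ _
  have hdn' : n' ∣ n := by exact_mod_cast hdn
  have heq : n' = n := le_antisymm (Nat.le_of_dvd (Nat.pos_of_ne_zero hn0) hdn') hle
  have hda : (n' : ℤ) ∣ a := Int.gcd_dvd_left _ _
  rwa [heq] at hda

end DualMain

open DualMain MainW

/-- The dual bound. -/
theorem bound_dual (K : Type*) [Field K] [NumberField K] (hK : Module.finrank ℚ K = 3)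
    (σ : Fin 3 → K →+* ℝ) (hσ : Function.Injective σ) (S : Finset ℕ) (hS : ∀ p ∈ S, p.Prime) :
    ∃ C : ℝ, 0 < C ∧ ∀ (α : Fin 3 → K) (n : ℕ), LinearIndependent ℚ α → IsSNumber S n →
      IsLevel K α n →
      markovMin (fun i j => σ i (α j)) ^ 4 * (n : ℝ) ^ 3 ≤ C * (latticeIndex K α : ℝ) ^ 2 := by
  obtain ⟨L, hL0, hL⟩ := exists_reduction K
  obtain ⟨δ, hδ, hdet⟩ := det_eq_index K hK σ hσ
  have hC := fun (I : Ideal (𝓞 K)) (hI : I ∈ L) => exists_small_dual K hK σ hσ S hS I (hL0 I hI)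
  choose! C hC0 hC using hC
  set C' : Ideal (𝓞 K) → ℝ := fun I => 64 ^ 2 * C I * (δ * (Ideal.absNorm I : ℝ)) ^ 2 with hC'
  have hC'0 : ∀ I ∈ L, 0 ≤ C' I := fun I hI => by
    have := hC0 I hI
    simp only [hC']
    positivity
  refine ⟨(∑ I ∈ L, C' I) + 1, ?_, ?_⟩
  · have : 0 ≤ ∑ I ∈ L, C' I := Finset.sum_nonneg hC'0
    positivity
  intro α n hα hnS hlev
  obtain ⟨I, hI, lam, α', hlam, hα', hspan, hclo⟩ := hL α n hα hlev.2.1
  have hli := li_scale α hα lam hlam α' hα'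
  obtain ⟨β, hdual, m, hm0, hbd⟩ := hC I hI n hnS α' hli hspan hclo
    (level_min α n hlev lam hlam α' hα' I hspan hclo)
  rw [markov_eq σ α lam hlam α' hα']
  set A : Matrix (Fin 3) (Fin 3) ℝ := fun i j => σ i (α' j : K) with hA
  set B : Matrix (Fin 3) (Fin 3) ℝ := fun i k => σ i (β k) with hB
  have hAB : A.transpose * B = 1 := by
    ext j k
    rw [Matrix.mul_apply]
    have h1 : ∀ i, A.transpose j i * B i k = σ i ((α' j : K) * β k) := fun i =>
      (map_mul (σ i) (α' j : K) (β k)).symm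
    rw [Finset.sum_congr rfl fun i _ => h1 i, ← trace_eq_sum K hK σ hσ, hdual j k, Matrix.one_apply]
    split_ifs <;> simp
  have hb : ∀ i, ∑ k, B i k * (m k : ℝ) = σ i (∑ k, (m k : K) * β k) := by
    intro i
    rw [map_sum]
    refine Finset.sum_congr rfl fun k _ => ?_
    rw [map_mul, map_intCast, mul_comm]
  have hne : ∀ i, ∑ k, B i k * (m k : ℝ) ≠ 0 := by
    intro i
    rw [hb i]
    exact (map_ne_zero (σ i)).mpr hm0
  have htr := transfer A B hAB m hne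
  have hdetA : |A.det| = δ * ((latticeIndex K α : ℝ) * (Ideal.absNorm I : ℝ)) := by
    have h1 := hdet α'
    rw [index_eq α lam hlam α' hα' I hspan] at h1
    push_cast at h1
    exact h1
  have hprod : |∏ i, ∑ k, B i k * (m k : ℝ)| = ∏ i, |σ i (∑ k, (m k : K) * β k)| := by
    rw [Finset.abs_prod]
    exact Finset.prod_congr rfl fun i _ => by rw [hb i]
  rw [hdetA, hprod] at htr
  set W : ℝ := ∏ i, |σ i (∑ k, (m k : K) * β k)| with hW
  have hW0 : 0 ≤ W := Finset.prod_nonneg fun i _ => abs_nonneg _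
  set l : ℝ := (latticeIndex K α : ℝ) with hl
  have hl0 : 0 ≤ l := Nat.cast_nonneg _
  have h1 : (markovMin A ^ 2) ^ 2 ≤ (64 * (W * (δ * (l * (Ideal.absNorm I : ℝ))))) ^ 2 :=
    pow_le_pow_left₀ (by positivity) htr 2
  have hn3 : (0 : ℝ) ≤ (n : ℝ) ^ 3 := by positivity
  calc markovMin A ^ 4 * (n : ℝ) ^ 3 = (markovMin A ^ 2) ^ 2 * (n : ℝ) ^ 3 := by ring
    _ ≤ (64 * (W * (δ * (l * (Ideal.absNorm I : ℝ))))) ^ 2 * (n : ℝ) ^ 3 :=
        mul_le_mul_of_nonneg_right h1 hn3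
    _ = 64 ^ 2 * (W ^ 2 * (n : ℝ) ^ 3) * (δ * (Ideal.absNorm I : ℝ)) ^ 2 * l ^ 2 := by ring
    _ ≤ 64 ^ 2 * C I * (δ * (Ideal.absNorm I : ℝ)) ^ 2 * l ^ 2 := by gcongr
    _ = C' I * l ^ 2 := rfl
    _ ≤ ((∑ I ∈ L, C' I) + 1) * l ^ 2 := by
        refine mul_le_mul_of_nonneg_right ?_ (by positivity)
        have := Finset.single_le_sum hC'0 hI
        linarith

end Pool.Agent.MP_ca7d12_nt
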