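import Pool.Agent.Lib.MP_ca7d12_nt.W.MainW
import Pool.Agent.Lib.MP_ca7d12_nt.V.DualMain

set_option autoImplicit false

namespace Pool.Agent.MP_ca7d12_nt

open NumberField

/-- The value of `m(F)` is the smallest norm divided by the determinant. -/
theorem exact_value (K : Type*) [Field K] [NumberField K] (hK : Module.finrank ℚ K = 3)
    (σ : Fin 3 → K →+* ℝ) (hσ : Function.Injective σ) (α : Fin 3 → 𝓞 K)
    (hα : LinearIndependent ℚ (fun j => (α j : K))) (C : ℤ)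
    (hC : ∃ x ∈ AddSubgroup.closure (Set.range α), x ≠ 0 ∧ |Algebra.norm ℤ x| ≤ C) :
    ∃ k : ℕ, 0 < k ∧ (k : ℤ) ≤ C ∧ markovMin (fun i j => σ i (α j : K)) =
      (k : ℝ) / |Matrix.det (Matrix.of fun i j => σ i (α j : K))| := by
  classical
  set A : Matrix (Fin 3) (Fin 3) ℝ := fun i j => σ i (α j : K) with hA
  have hAof : Matrix.det (Matrix.of fun i j => σ i (α j : K)) = A.det := rfl
  have hval : ∀ x : Fin 3 → ℤ, ∏ i : Fin 3, ∑ j : Fin 3, A i j * (x j : ℝ) =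
      ((Algebra.norm ℤ (∑ j, x j • α j) : ℤ) : ℝ) := by
    intro x
    rw [← prod_embeddings K hK σ hσ]
    refine Finset.prod_congr rfl fun i _ => ?_
    have h1 : ((∑ j, x j • α j : 𝓞 K) : K) = ∑ j, (α j : K) * (x j : K) := by
      simp only [map_sum, zsmul_eq_mul, map_mul, map_intCast]
      exact Finset.sum_congr rfl fun j _ => mul_comm _ _
    rw [h1, map_sum]
    refine Finset.sum_congr rfl fun j _ => ?_
    rw [map_mul, map_intCast]
  have hne : ∀ x : Fin 3 → ℤ, x ≠ 0 → (∑ j, x j • α j) ≠ 0 := by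
    intro x hx h0
    apply hx
    have h1 : ∑ j, (x j : ℚ) • (α j : K) = 0 := by
      have h2 : ((∑ j, x j • α j : 𝓞 K) : K) = ∑ j, (x j : K) * (α j : K) := by
        simp only [map_sum, zsmul_eq_mul, map_mul, map_intCast]
      have h3 : ((0 : 𝓞 K) : K) = 0 := rfl
      rw [h0, h3] at h2
      rw [h2]
      refine Finset.sum_congr rfl fun j _ => ?_
      rw [Rat.smul_def]
      push_cast
      rfl
    have h2 := Fintype.linearIndependent_iff.1 hα (fun j => (x j : ℚ)) h1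
    funext j
    have := h2 j
    exact_mod_cast this
  set S : Set ℕ := {n | ∃ x : Fin 3 → ℤ, x ≠ 0 ∧ n = (Algebra.norm ℤ (∑ j, x j • α j)).natAbs}
    with hS
  obtain ⟨x₀, hx₀, hx₀0, hx₀C⟩ := hC
  obtain ⟨y, hy0, hy⟩ : ∃ y : Fin 3 → ℤ, y ≠ 0 ∧ x₀ = ∑ j, y j • α j := by
    have h1 : x₀ ∈ Submodule.span ℤ (Set.range α) := by
      have h2 : (Submodule.span ℤ (Set.range α)).toAddSubgroup =
          AddSubgroup.closure (Set.range α) := Submodule.span_int_eq_addSubgroupClosure _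
      rw [← h2] at hx₀
      exact hx₀
    obtain ⟨y, hy⟩ := (Submodule.mem_span_range_iff_exists_fun ℤ).1 h1
    refine ⟨y, ?_, hy.symm⟩
    rintro rfl
    apply hx₀0
    rw [← hy]
    simp
  have hSne : S.Nonempty := ⟨_, y, hy0, rfl⟩
  have hleast : IsLeast {r : ℝ | ∃ x : Fin 3 → ℤ, x ≠ 0 ∧
      r = |(∏ i : Fin 3, ∑ j : Fin 3, A i j * (x j : ℝ)) / A.det|} ((sInf S : ℕ) / |A.det|) := by
    constructor
    · obtain ⟨x, hx0, hx⟩ := Nat.sInf_mem hSne
      refine ⟨x, hx0, ?_⟩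
      rw [hval, abs_div, hx]
      congr 1
      rw [Nat.cast_natAbs, Int.cast_abs]
    · rintro r ⟨x, hx0, rfl⟩
      rw [hval, abs_div]
      refine div_le_div_of_nonneg_right ?_ (abs_nonneg _)
      have h1 : sInf S ≤ (Algebra.norm ℤ (∑ j, x j • α j)).natAbs := Nat.sInf_le ⟨x, hx0, rfl⟩
      have h2 : ((sInf S : ℕ) : ℝ) ≤ (((Algebra.norm ℤ (∑ j, x j • α j)).natAbs : ℕ) : ℝ) := by
        exact_mod_cast h1
      rwa [Nat.cast_natAbs, Int.cast_abs] at h2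
  refine ⟨sInf S, ?_, ?_, ?_⟩
  · obtain ⟨x, hx0, hx⟩ := Nat.sInf_mem hSne
    rw [hx, Int.natAbs_pos]
    exact Algebra.norm_ne_zero_iff.2 (hne x hx0)
  · have h1 : sInf S ≤ (Algebra.norm ℤ x₀).natAbs := Nat.sInf_le ⟨y, hy0, by rw [hy]⟩
    have h2 : (((Algebra.norm ℤ x₀).natAbs : ℕ) : ℤ) = |Algebra.norm ℤ x₀| := Int.natCast_natAbs _
    omega
  · rw [hAof]
    exact hleast.csInf_eq

open MainW DualMain in
/-- When the units are open modulo scalars, the products `m(F) [𝓞_K M : M]` take only finitely many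
values. -/
theorem finite_products (K : Type*) [Field K] [NumberField K] (hK : Module.finrank ℚ K = 3)
    (σ : Fin 3 → K →+* ℝ) (hσ : Function.Injective σ) (S : Finset ℕ) (hS : ∀ p ∈ S, p.Prime)
    (hU : UnitsOpen (𝓞 K) (∏ p ∈ S, (p : ℤ))) :
    ∃ V : Finset ℝ, (∀ v ∈ V, 0 < v) ∧ ∀ (α : Fin 3 → K) (n : ℕ), LinearIndependent ℚ α →
      IsSNumber S n → StableUnder K α n → 0 < latticeIndex K α ∧
        markovMin (fun i j => σ i (α j)) * (latticeIndex K α : ℝ) ∈ V := by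
  classical
  obtain ⟨L, hL0, hL⟩ := exists_reduction K
  obtain ⟨δ, hδ, hdet⟩ := det_eq_index K hK σ hσ
  have hP0 : (∏ p ∈ S, (p : ℤ)) ≠ 0 :=
    Finset.prod_ne_zero_iff.mpr fun p hp => by exact_mod_cast (hS p hp).ne_zero
  have hC : ∀ I : Ideal (𝓞 K), I ∈ L → ∃ C : ℤ, ∀ M : AddSubgroup (𝓞 K),
      Ideal.span (M : Set (𝓞 K)) = I →
      (∃ k : ℕ, ∀ y ∈ I, (((∏ p ∈ S, (p : ℤ)) : ℤ) : 𝓞 K) ^ k * y ∈ M) →
      ∃ x ∈ M, x ≠ 0 ∧ |Algebra.norm ℤ x| ≤ C :=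
    fun I hI => exists_small K _ hP0 hU I (hL0 I hI)
  choose! C hC using hC
  refine ⟨L.biUnion fun I => (Finset.Ioc 0 (C I).toNat).image
    (fun k : ℕ => (k : ℝ) / (δ * (Ideal.absNorm I : ℝ))), ?_, ?_⟩
  · intro v hv
    obtain ⟨I, hI, hv⟩ := Finset.mem_biUnion.1 hv
    obtain ⟨k, hk, rfl⟩ := Finset.mem_image.1 hv
    have h1 : (0 : ℝ) < (k : ℝ) := by exact_mod_cast (Finset.mem_Ioc.1 hk).1
    have h2 : (0 : ℝ) < (Ideal.absNorm I : ℝ) := by exact_mod_cast absNorm_pos I (hL0 I hI)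
    positivity
  rintro α n hα ⟨hn0, hnS⟩ hst
  obtain ⟨I, hI, lam, α', hlam, hα', hspan, hclo⟩ := hL α n hα hst
  obtain ⟨x, hxM, hx0, hxN⟩ := hC I hI _ (MainT.span_closure I α' hspan) (by
    obtain ⟨k, hk⟩ := dvd_pow_of_primes (∏ p ∈ S, p) n hn0 (fun p hp hpn =>
      Finset.dvd_prod_of_mem (fun p : ℕ => p) (hnS p hp hpn))
    refine ⟨k, fun y hy => ?_⟩
    obtain ⟨q, hq⟩ := hk
    have h1 : (((∏ p ∈ S, (p : ℤ)) : ℤ) : 𝓞 K) ^ k = (q : 𝓞 K) * (n : 𝓞 K) := by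
      have h2 : ((∏ p ∈ S, p : ℕ) : 𝓞 K) ^ k = (n : 𝓞 K) * (q : 𝓞 K) := by
        exact_mod_cast congrArg (fun z : ℕ => (z : 𝓞 K)) hq
      rw [mul_comm, ← h2]
      push_cast
      rfl
    rw [h1, mul_assoc, ← nsmul_eq_mul]
    exact AddSubgroup.nsmul_mem _ (hclo y hy) q)
  have hidx0 : (AddSubgroup.closure (Set.range α')).index ≠ 0 := by
    have hle : Submodule.toAddSubgroup (Ideal.span {(n : 𝓞 K)} * I) ≤
        AddSubgroup.closure (Set.range α') := by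
      intro x hx
      obtain ⟨z, hz, rfl⟩ := Ideal.mem_span_singleton_mul.1 hx
      exact hclo z hz
    have h1 := AddSubgroup.relIndex_mul_index hle
    have h2 : (Submodule.toAddSubgroup (Ideal.span {(n : 𝓞 K)} * I)).index =
        Ideal.absNorm (Ideal.span {(n : 𝓞 K)} * I) := rfl
    have h3 : Ideal.absNorm (Ideal.span {(n : 𝓞 K)} * I) ≠ 0 := by
      rw [Ne, Ideal.absNorm_eq_zero_iff]
      refine mul_ne_zero ?_ (hL0 I hI)
      rw [Ne, Ideal.zero_eq_bot, Ideal.span_singleton_eq_bot]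
      exact Nat.cast_ne_zero.mpr hn0
    rw [h2] at h1
    rw [← h1] at h3
    exact right_ne_zero_of_mul h3
  have hidx := index_eq α lam hlam α' hα' I hspan
  have hlat : 0 < latticeIndex K α := by
    rw [hidx] at hidx0
    exact Nat.pos_of_ne_zero (left_ne_zero_of_mul hidx0)
  refine ⟨hlat, ?_⟩
  obtain ⟨k, hk0, hkC, hk⟩ := exact_value K hK σ hσ α' (li_scale α hα lam hlam α' hα') (C I)
    ⟨x, hxM, hx0, hxN⟩
  rw [markov_eq σ α lam hlam α' hα', hk, hdet α', hidx]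
  refine Finset.mem_biUnion.2 ⟨I, hI, Finset.mem_image.2 ⟨k, ?_, ?_⟩⟩
  · rw [Finset.mem_Ioc]
    exact ⟨hk0, by omega⟩
  · have h1 : (0 : ℝ) < (latticeIndex K α : ℝ) := by exact_mod_cast hlat
    have h2 : (0 : ℝ) < (Ideal.absNorm I : ℝ) := by exact_mod_cast absNorm_pos I (hL0 I hI)
    push_cast
    field_simp

end Pool.Agent.MP_ca7d12_nt
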