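import Pool.Agent.Lib.MP_ca7d12_nt.W.Defs

set_option autoImplicit false

namespace Pool.Agent.MP_ca7d12_nt

open NumberField

/-- `n` is the least positive integer such that `n 𝓞_K` is contained in the ring of multipliers of
the lattice `ℤ α₀ + ℤ α₁ + ℤ α₂`. -/
def IsLevel (K : Type*) [Field K] [NumberField K] (α : Fin 3 → K) (n : ℕ) : Prop :=
  n ≠ 0 ∧ StableUnder K α n ∧ ∀ n' : ℕ, n' ≠ 0 → StableUnder K α n' → n ≤ n'

/-- The subgroup `g (a ℤ + b v ℤ) + J`, where `J` is an ideal. -/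
def LLJ (K : Type*) [Field K] [NumberField K] (J : Ideal (𝓞 K)) (g v : 𝓞 K) (a b : ℕ) :
    AddSubgroup (𝓞 K) where
  carrier := {y | ∃ (c t : ℤ), ∃ z ∈ J,
    y = g * ((a : 𝓞 K) * (c : 𝓞 K) + (b : 𝓞 K) * (t : 𝓞 K) * v) + z}
  add_mem' := by
    rintro _ _ ⟨c, t, z, hz, rfl⟩ ⟨c', t', z', hz', rfl⟩
    refine ⟨c + c', t + t', z + z', J.add_mem hz hz', ?_⟩
    push_cast
    ring
  zero_mem' := ⟨0, 0, 0, J.zero_mem, by push_cast; ring⟩
  neg_mem' := by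
    rintro _ ⟨c, t, z, hz, rfl⟩
    refine ⟨-c, -t, -z, J.neg_mem hz, ?_⟩
    push_cast
    ring

end Pool.Agent.MP_ca7d12_nt
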