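import Pool.Agent.Lib.MP_ca7d12_nt.V.Defs

set_option autoImplicit false

namespace Pool.Agent.MP_ca7d12_nt

open NumberField

/-- An element with integral coordinates lies in the lattice. -/
theorem dual_mem_span {K : Type*} [Field K] [NumberField K] (b b' : Module.Basis (Fin 3) ℚ K)
    (h : ∀ j k, Algebra.trace ℚ K (b j * b' k) = if j = k then 1 else 0) (x : K)
    (hx : ∀ k, ∃ c : ℤ, Algebra.trace ℚ K (x * b' k) = (c : ℚ)) :
    x ∈ Submodule.span ℤ (Set.range b) := by
  choose c hc using hx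
  have h1 : ∀ k, b.repr x k = (c k : ℚ) := by
    intro k
    rw [← hc k]
    conv_rhs => rw [← b.sum_repr x]
    rw [Finset.sum_mul, map_sum]
    have h2 : ∀ j, Algebra.trace ℚ K (b.repr x j • b j * b' k) =
        if j = k then b.repr x j else 0 := by
      intro j
      rw [smul_mul_assoc, map_smul, h, smul_eq_mul, mul_ite, mul_one, mul_zero]
    rw [Finset.sum_congr rfl fun j _ => h2 j, Finset.sum_ite_eq' Finset.univ k]
    simp
  rw [← b.sum_repr x]
  refine Submodule.sum_mem _ fun j _ => ?_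
  rw [h1 j]
  have h2 : ((c j : ℚ) • b j : K) = (c j : ℤ) • b j := by
    rw [Int.cast_smul_eq_zsmul]
  rw [h2]
  exact Submodule.smul_mem _ _ (Submodule.subset_span ⟨j, rfl⟩)

/-- Existence of the dual basis for the trace form, and recovery of the lattice from it. -/
theorem exists_dual (K : Type*) [Field K] [NumberField K] (hK : Module.finrank ℚ K = 3)
    (α : Fin 3 → K) (hα : LinearIndependent ℚ α) :
    ∃ β : Fin 3 → K, (∀ j k, Algebra.trace ℚ K (α j * β k) = if j = k then 1 else 0) ∧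
      (∀ x : K, (∀ k, ∃ c : ℤ, Algebra.trace ℚ K (x * β k) = (c : ℚ)) →
        x ∈ Submodule.span ℤ (Set.range α)) ∧
      (∀ y : K, (∀ j, ∃ c : ℤ, Algebra.trace ℚ K (α j * y) = (c : ℚ)) →
        y ∈ Submodule.span ℤ (Set.range β)) := by
  classical
  obtain ⟨b, hb⟩ : ∃ b : Module.Basis (Fin 3) ℚ K, (b : Fin 3 → K) = α :=
    ⟨basisOfLinearIndependentOfCardEqFinrank hα (by rw [hK, Fintype.card_fin]),
      coe_basisOfLinearIndependentOfCardEqFinrank _ _⟩
  obtain ⟨b', hb'⟩ : ∃ b' : Module.Basis (Fin 3) ℚ K,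
      b' = (Algebra.traceForm ℚ K).dualBasis (traceForm_nondegenerate ℚ K) b := ⟨_, rfl⟩
  have h1 : ∀ j k, Algebra.trace ℚ K (b j * b' k) = if j = k then 1 else 0 := by
    intro j k
    rw [← Algebra.traceForm_apply, hb']
    exact LinearMap.BilinForm.apply_dualBasis_right _ (Algebra.traceForm_isSymm ℚ) b j k
  have h2 : ∀ j k, Algebra.trace ℚ K (b' j * b k) = if j = k then 1 else 0 := by
    intro j k
    rw [mul_comm, h1]
    simp only [eq_comm]
  refine ⟨b', fun j k => ?_, fun x hx => ?_, fun y hy => ?_⟩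
  · rw [← hb]
    exact h1 j k
  · rw [← hb]
    exact dual_mem_span b b' h1 x hx
  · refine dual_mem_span b' b h2 y fun k => ?_
    obtain ⟨c, hc⟩ := hy k
    exact ⟨c, by rw [hb, mul_comm, hc]⟩

/-- The trace as the sum over the three real embeddings. -/
theorem trace_eq_sum (K : Type*) [Field K] [NumberField K] (hK : Module.finrank ℚ K = 3)
    (σ : Fin 3 → K →+* ℝ) (hσ : Function.Injective σ) (x : K) :
    ((Algebra.trace ℚ K x : ℚ) : ℝ) = ∑ i, σ i x := by
  classical
  have hinj : Function.Injective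
      (fun i : Fin 3 => (((Complex.ofRealHom).comp (σ i)).toRatAlgHom : K →ₐ[ℚ] ℂ)) := by
    intro i j hij
    apply hσ
    ext y
    have h1 := congrArg (fun f : K →ₐ[ℚ] ℂ => f y) hij
    simpa using h1
  have hcard : Fintype.card (Fin 3) = Fintype.card (K →ₐ[ℚ] ℂ) := by
    rw [AlgHom.card ℚ K ℂ, hK, Fintype.card_fin]
  have hbij : Function.Bijective
      (fun i : Fin 3 => (((Complex.ofRealHom).comp (σ i)).toRatAlgHom : K →ₐ[ℚ] ℂ)) :=
    (Fintype.bijective_iff_injective_and_card _).2 ⟨hinj, hcard⟩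
  have hn := trace_eq_sum_embeddings ℂ (K := ℚ) (L := K) (x := x)
  have h2 : ∑ τ : K →ₐ[ℚ] ℂ, τ x = ∑ i : Fin 3, ((σ i x : ℝ) : ℂ) :=
    (Function.Bijective.sum_comp hbij (fun τ : K →ₐ[ℚ] ℂ => τ x)).symm.trans (by simp)
  rw [h2] at hn
  have h4 : (((Algebra.trace ℚ K x : ℚ) : ℝ) : ℂ) = ((∑ i : Fin 3, σ i x : ℝ) : ℂ) := by
    push_cast
    rw [← hn]
    simp
  exact Complex.ofReal_injective h4

end Pool.Agent.MP_ca7d12_nt
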