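import Pool.Agent.Lib.MP_ca7d12_nt.V.Defs

set_option autoImplicit false

namespace Pool.Agent.MP_ca7d12_nt

open NumberField

/-- The trace dual of a nonzero ideal becomes integral after multiplication by a fixed integer. -/
theorem dual_integral (K : Type*) [Field K] [NumberField K] (I : Ideal (𝓞 K)) (hI : I ≠ ⊥) :
    ∃ q : ℕ, q ≠ 0 ∧ ∀ y : K, (∀ x ∈ I, ∃ c : ℤ, Algebra.trace ℚ K (y * (x : K)) = (c : ℚ)) →
      ∃ z : 𝓞 K, (z : K) = (q : K) * y := by
  classical
  have hN : ((Ideal.absNorm I : ℕ) : 𝓞 K) ∈ I := Ideal.absNorm_mem I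
  have hN0 : Ideal.absNorm I ≠ 0 := fun h => hI (Ideal.absNorm_eq_zero_iff.1 h)
  refine ⟨(NumberField.discr K).natAbs * Ideal.absNorm I,
    mul_ne_zero (Int.natAbs_ne_zero.2 (NumberField.discr_ne_zero K)) hN0, fun y hy => ?_⟩
  have hyJ : y ∈ Submodule.traceDual ℤ ℚ (Submodule.map (Algebra.linearMap (𝓞 K) K) I) := by
    rw [Submodule.mem_traceDual]
    rintro _ ⟨x, hx, rfl⟩
    obtain ⟨c, hc⟩ := hy x hx
    exact ⟨c, by rw [Algebra.traceForm_apply, Algebra.linearMap_apply, hc]; simp⟩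
  have haJ : (((Ideal.absNorm I : ℕ) : 𝓞 K) : K) ∈
      Submodule.map (Algebra.linearMap (𝓞 K) K) I := ⟨_, hN, rfl⟩
  have hint := isIntegral_discr_mul_of_mem_traceDual (A := ℤ) (K := ℚ)
    (Submodule.map (Algebra.linearMap (𝓞 K) K) I) (b := integralBasis K)
    (fun i => by
      rw [integralBasis_apply]
      exact RingOfIntegers.isIntegral_coe _) haJ hyJ
  rw [← NumberField.coe_discr] at hint
  have hcast : (((NumberField.discr K : ℤ) : ℚ) • (((Ideal.absNorm I : ℕ) : 𝓞 K) : K) * y) =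
      ((NumberField.discr K : ℤ) : K) * ((Ideal.absNorm I : ℕ) : K) * y := by
    rw [Algebra.smul_def]
    simp
  rw [hcast] at hint
  have hint2 : IsIntegral ℤ ((((NumberField.discr K).natAbs * Ideal.absNorm I : ℕ) : K) * y) := by
    rcases Int.natAbs_eq (NumberField.discr K) with h | h
    · have h2 : (((NumberField.discr K).natAbs : ℕ) : K) = ((NumberField.discr K : ℤ) : K) := by
        conv_rhs => rw [h]
        rw [Int.cast_natCast]
      rw [Nat.cast_mul, h2]
      exact hint
    · have h2 : (((NumberField.discr K).natAbs : ℕ) : K) = -((NumberField.discr K : ℤ) : K) := by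
        conv_rhs => rw [h]
        rw [Int.cast_neg, Int.cast_natCast, neg_neg]
      rw [Nat.cast_mul, h2]
      have h3 := hint.neg
      have h4 : -((NumberField.discr K : ℤ) : K) * ((Ideal.absNorm I : ℕ) : K) * y =
          -(((NumberField.discr K : ℤ) : K) * ((Ideal.absNorm I : ℕ) : K) * y) := by ring
      rw [h4]
      exact h3
  exact ⟨⟨_, hint2⟩, rfl⟩

end Pool.Agent.MP_ca7d12_nt
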