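import Pool.Agent.Lib.MP_ca7d12_nt.V.KeyV
import Pool.Agent.Lib.MP_ca7d12_nt.V.Dual
import Pool.Agent.Lib.MP_ca7d12_nt.V.DualInt
import Pool.Agent.Lib.MP_ca7d12_nt.T.MainT

set_option autoImplicit false

namespace Pool.Agent.MP_ca7d12_nt

open NumberField

namespace DualKey

variable {K : Type*} [Field K] [NumberField K]

theorem coe_zero' : ((0 : 𝓞 K) : K) = 0 := rfl

theorem coe_one' : ((1 : 𝓞 K) : K) = 1 := rfl

/-- `y` has integral traces against `I`. -/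
def DI (I : Ideal (𝓞 K)) (y : K) : Prop :=
  ∀ x ∈ I, ∃ c : ℤ, Algebra.trace ℚ K (y * (x : K)) = (c : ℚ)

theorem DI_add (I : Ideal (𝓞 K)) (y y' : K) (h : DI I y) (h' : DI I y') : DI I (y + y') := by
  intro x hx
  obtain ⟨c, hc⟩ := h x hx
  obtain ⟨c', hc'⟩ := h' x hx
  exact ⟨c + c', by rw [add_mul, map_add, hc, hc']; push_cast; rfl⟩

theorem DI_mul (I : Ideal (𝓞 K)) (r : 𝓞 K) (y : K) (h : DI I y) : DI I ((r : K) * y) := by
  intro x hx
  obtain ⟨c, hc⟩ := h (r * x) (I.mul_mem_left _ hx)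
  refine ⟨c, ?_⟩
  rw [← hc, MainT.coe_mul']
  congr 1
  ring

theorem DI_zero (I : Ideal (𝓞 K)) : DI I (0 : K) := fun x _ => ⟨0, by simp⟩

/-- The ideal `q I^∨ ∩ 𝓞 K`. -/
def J₀ (I : Ideal (𝓞 K)) (q : ℕ) : Ideal (𝓞 K) where
  carrier := {z | ∃ w : K, DI I w ∧ (z : K) = (q : K) * w}
  add_mem' := by
    rintro _ _ ⟨w, hw, h⟩ ⟨w', hw', h'⟩
    exact ⟨w + w', DI_add I w w' hw hw', by rw [MainT.coe_add', h, h']; ring⟩
  zero_mem' := ⟨0, DI_zero I, by simp⟩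
  smul_mem' := by
    rintro r _ ⟨w, hw, h⟩
    refine ⟨(r : K) * w, DI_mul I r w hw, ?_⟩
    rw [smul_eq_mul, MainT.coe_mul', h]
    ring

theorem J₀_ne_bot (I : Ideal (𝓞 K)) (q : ℕ) (hq : q ≠ 0) : J₀ I q ≠ ⊥ := by
  intro h
  have h1 : ((q : ℕ) : 𝓞 K) ∈ J₀ I q := by
    refine ⟨1, ?_, by rw [MainT.coe_nat, mul_one]⟩
    intro x _
    refine ⟨Algebra.trace ℤ (𝓞 K) x, ?_⟩
    rw [one_mul]
    exact (Algebra.trace_localization ℤ (nonZeroDivisors ℤ) x).trans (by simp)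
  rw [h, Ideal.mem_bot] at h1
  exact hq (by exact_mod_cast h1)

/-- The lattice `q n M^∨ ∩ 𝓞 K`. -/
def MD (β : Fin 3 → K) (q n : ℕ) : AddSubgroup (𝓞 K) where
  carrier := {z | ∃ y ∈ Submodule.span ℤ (Set.range β), (z : K) = (q : K) * (n : K) * y}
  add_mem' := by
    rintro _ _ ⟨w, hw, h⟩ ⟨w', hw', h'⟩
    exact ⟨w + w', Submodule.add_mem _ hw hw', by rw [MainT.coe_add', h, h']; ring⟩
  zero_mem' := ⟨0, Submodule.zero_mem _, by simp⟩
  neg_mem' := by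
    rintro _ ⟨w, hw, h⟩
    exact ⟨-w, Submodule.neg_mem _ hw, by rw [MainT.coe_neg', h]; ring⟩

end DualKey

open DualKey in
/-- The dual lattice contains a nonzero element of norm at most `C n ^ (-3/2)`. -/
theorem exists_small_dual (K : Type*) [Field K] [NumberField K] (hK : Module.finrank ℚ K = 3)
    (σ : Fin 3 → K →+* ℝ) (hσ : Function.Injective σ) (S : Finset ℕ) (hS : ∀ p ∈ S, p.Prime)
    (I : Ideal (𝓞 K)) (hI : I ≠ ⊥) :
    ∃ C : ℝ, 0 < C ∧ ∀ (n : ℕ), IsSNumber S n → ∀ α : Fin 3 → 𝓞 K,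
      LinearIndependent ℚ (fun j => (α j : K)) → Ideal.span (Set.range α) = I →
      (∀ y ∈ I, (n : 𝓞 K) * y ∈ AddSubgroup.closure (Set.range α)) →
      (∀ a : ℤ, (∀ y ∈ I, (a : 𝓞 K) * y ∈ AddSubgroup.closure (Set.range α)) → (n : ℤ) ∣ a) →
      ∃ β : Fin 3 → K, (∀ j k, Algebra.trace ℚ K ((α j : K) * β k) = if j = k then 1 else 0) ∧
        ∃ m : Fin 3 → ℤ, (∑ k, (m k : K) * β k) ≠ 0 ∧
          (∏ i, |σ i (∑ k, (m k : K) * β k)|) ^ 2 * (n : ℝ) ^ 3 ≤ C := by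
  obtain ⟨C, hC, hkey⟩ := exists_small_V K hK σ hσ S hS
  obtain ⟨q, hq, hint⟩ := dual_integral K I hI
  have hq' : (q : K) ≠ 0 := Nat.cast_ne_zero.mpr hq
  refine ⟨C * (Ideal.absNorm (J₀ I q) : ℝ) ^ 2 + 1, by positivity, ?_⟩
  intro n hn α hα hspan hclo hmin
  have hn0 : (n : K) ≠ 0 := Nat.cast_ne_zero.mpr hn.1
  obtain ⟨β, hdual, hA, hB⟩ := exists_dual K hK (fun j => (α j : K)) hα
  refine ⟨β, hdual, ?_⟩
  -- traces of elements of the two lattices are integers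
  have hαβ : ∀ x ∈ AddSubgroup.closure (Set.range α), ∀ y ∈ Submodule.span ℤ (Set.range β),
      ∃ c : ℤ, Algebra.trace ℚ K ((x : K) * y) = (c : ℚ) := by
    intro x hx y hy
    induction hx using AddSubgroup.closure_induction with
    | mem x hx =>
      obtain ⟨j, rfl⟩ := hx
      induction hy using Submodule.span_induction with
      | mem y hy =>
        obtain ⟨k, rfl⟩ := hy
        rw [hdual j k]
        split_ifs
        · exact ⟨1, by simp⟩
        · exact ⟨0, by simp⟩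
      | zero => exact ⟨0, by simp⟩
      | add y y' _ _ hy hy' =>
        obtain ⟨c, hc⟩ := hy
        obtain ⟨c', hc'⟩ := hy'
        exact ⟨c + c', by rw [mul_add, map_add, hc, hc']; push_cast; rfl⟩
      | smul a y _ hy =>
        obtain ⟨c, hc⟩ := hy
        refine ⟨a * c, ?_⟩
        rw [mul_smul_comm, map_zsmul, hc, zsmul_eq_mul]
        push_cast
        rfl
    | zero => exact ⟨0, by simp⟩
    | add x x' _ _ hx hx' =>
      obtain ⟨c, hc⟩ := hx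
      obtain ⟨c', hc'⟩ := hx'
      exact ⟨c + c', by rw [MainT.coe_add', add_mul, map_add, hc, hc']; push_cast; rfl⟩
    | neg x _ hx =>
      obtain ⟨c, hc⟩ := hx
      exact ⟨-c, by rw [MainT.coe_neg', neg_mul, map_neg, hc]; push_cast; rfl⟩
  have hDI : ∀ y ∈ Submodule.span ℤ (Set.range β), DI I ((n : K) * y) := by
    intro y hy x hx
    obtain ⟨c, hc⟩ := hαβ _ (hclo x hx) y hy
    refine ⟨c, ?_⟩
    rw [← hc, MainT.coe_mul', MainT.coe_nat]
    congr 1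
    ring
  have hlift : ∀ y ∈ Submodule.span ℤ (Set.range β), ∃ z : 𝓞 K,
      (z : K) = (q : K) * (n : K) * y := by
    intro y hy
    obtain ⟨z, hz⟩ := hint _ (hDI y hy)
    exact ⟨z, by rw [hz]; ring⟩
  have hMJ₀ : ∀ z ∈ MD β q n, z ∈ J₀ I q := by
    rintro z ⟨y, hy, hz⟩
    exact ⟨(n : K) * y, hDI y hy, by rw [hz]; ring⟩
  set M : AddSubgroup (𝓞 K) := MD β q n with hMdef
  set J : Ideal (𝓞 K) := Ideal.span {(n : 𝓞 K)} * J₀ I q with hJdef
  have hβ0 : β 0 ≠ 0 := by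
    intro h0
    have := hdual 0 0
    rw [h0, mul_zero, map_zero] at this
    simp at this
  obtain ⟨z₀, hz₀⟩ := hlift (β 0) (Submodule.subset_span ⟨0, rfl⟩)
  have hz₀M : z₀ ∈ M := ⟨β 0, Submodule.subset_span ⟨0, rfl⟩, hz₀⟩
  have hz₀0 : z₀ ≠ 0 := by
    rintro rfl
    rw [coe_zero'] at hz₀
    exact mul_ne_zero (mul_ne_zero hq' hn0) hβ0 hz₀.symm
  have hI'' : Ideal.span (M : Set (𝓞 K)) ≠ ⊥ := by
    intro h0
    have h1 : z₀ ∈ Ideal.span (M : Set (𝓞 K)) := Ideal.subset_span hz₀M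
    rw [h0, Ideal.mem_bot] at h1
    exact hz₀0 h1
  have hJ : J ≠ ⊥ := by
    rw [hJdef]
    refine mul_ne_zero ?_ (J₀_ne_bot I q hq)
    rw [Ne, Ideal.zero_eq_bot, Ideal.span_singleton_eq_bot]
    exact Nat.cast_ne_zero.mpr hn.1
  have hJM : ∀ x ∈ J, x ∈ M := by
    intro x hx
    obtain ⟨z, ⟨w, hw, hzw⟩, rfl⟩ := Ideal.mem_span_singleton_mul.1 hx
    refine ⟨w, hB w ?_, ?_⟩
    · intro j
      have hjI : α j ∈ I := by rw [← hspan]; exact Ideal.subset_span ⟨j, rfl⟩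
      obtain ⟨c, hc⟩ := hw (α j) hjI
      exact ⟨c, by rw [← hc, mul_comm]⟩
    · rw [MainT.coe_mul', MainT.coe_nat, hzw]
      ring
  have hnJ : ∀ y ∈ Ideal.span (M : Set (𝓞 K)), (n : 𝓞 K) * y ∈ J := by
    intro y hy
    have h1 : Ideal.span (M : Set (𝓞 K)) ≤ J₀ I q := Ideal.span_le.2 hMJ₀
    exact Ideal.mul_mem_mul (Ideal.mem_span_singleton_self _) (h1 hy)
  have hminM : ∀ a : ℤ, (∀ y ∈ Ideal.span (M : Set (𝓞 K)), (a : 𝓞 K) * y ∈ M) → (n : ℤ) ∣ a := by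
    intro a ha
    refine hmin a fun x hx => ?_
    -- integrality of all the traces
    have htr : ∀ (k : Fin 3), ∀ x ∈ Ideal.span (Set.range α), ∀ r : 𝓞 K, ∃ c : ℤ,
        Algebra.trace ℚ K ((a : K) * (r : K) * (x : K) * β k) = (c : ℚ) := by
      intro k x hx
      induction hx using Submodule.span_induction with
      | mem x hx =>
        intro r
        obtain ⟨z, hz⟩ := hlift (β k) (Submodule.subset_span ⟨k, rfl⟩)
        have hzM : z ∈ M := ⟨β k, Submodule.subset_span ⟨k, rfl⟩, hz⟩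
        obtain ⟨y, hy, hyz⟩ := ha (r * z) (Ideal.mul_mem_left _ _ (Ideal.subset_span hzM))
        have h1 : (a : K) * (r : K) * β k = y := by
          rw [MainT.coe_mul', MainT.coe_mul', MainT.coe_int, hz] at hyz
          have h2 : (q : K) * (n : K) ≠ 0 := mul_ne_zero hq' hn0
          apply mul_left_cancel₀ h2
          rw [← hyz]
          ring
        obtain ⟨c, hc⟩ := hαβ x (AddSubgroup.subset_closure hx) y hy
        refine ⟨c, ?_⟩
        rw [← hc, ← h1]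
        congr 1
        ring
      | zero => exact fun r => ⟨0, by simp⟩
      | add x x' _ _ hx hx' =>
        intro r
        obtain ⟨c, hc⟩ := hx r
        obtain ⟨c', hc'⟩ := hx' r
        refine ⟨c + c', ?_⟩
        rw [MainT.coe_add', mul_add, add_mul, map_add, hc, hc']
        push_cast
        rfl
      | smul s x _ hx =>
        intro r
        obtain ⟨c, hc⟩ := hx (r * s)
        refine ⟨c, ?_⟩
        rw [← hc, smul_eq_mul, MainT.coe_mul', MainT.coe_mul']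
        congr 1
        ring
    have h1 : (((a : 𝓞 K) * x : 𝓞 K) : K) ∈
        Submodule.span ℤ (Set.range fun j => (α j : K)) := by
      refine hA _ fun k => ?_
      obtain ⟨c, hc⟩ := htr k x (by rw [hspan]; exact hx) 1
      refine ⟨c, ?_⟩
      rw [← hc, MainT.coe_mul', MainT.coe_int, coe_one', mul_one]
    obtain ⟨x', hx', hxx⟩ := MainT.up (fun j => (α j : K)) α 1 (fun j => (one_mul _).symm) _ h1
    rw [one_mul] at hxx
    have h2 : (a : 𝓞 K) * x = x' := RingOfIntegers.ext hxx.symm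
    rw [h2]
    exact hx'
  obtain ⟨x, hxM, hx0, hxN⟩ := hkey n hn (Ideal.span (M : Set (𝓞 K))) J M hI'' hJ rfl hJM hnJ hminM
  obtain ⟨y, hy, hxy⟩ := hxM
  obtain ⟨m, hm⟩ := (Submodule.mem_span_range_iff_exists_fun ℤ).mp hy
  have hm' : ∑ k, (m k : K) * β k = y := by
    rw [← hm]
    exact Finset.sum_congr rfl fun k _ => (zsmul_eq_mul _ _).symm
  refine ⟨m, ?_, ?_⟩
  · rw [hm']
    rintro rfl
    apply hx0
    apply RingOfIntegers.ext
    rw [hxy, mul_zero, coe_zero']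
  · rw [hm']
    have hnorm : Ideal.absNorm J = n ^ 3 * Ideal.absNorm (J₀ I q) := by
      rw [hJdef, map_mul, Ideal.absNorm_span_singleton]
      congr 1
      have h1 : ((n : ℕ) : 𝓞 K) = algebraMap ℤ (𝓞 K) (n : ℤ) := by simp
      rw [h1, Algebra.norm_algebraMap, NumberField.RingOfIntegers.rank, hK]
      simp [Int.natAbs_pow]
    rw [hnorm] at hxN
    push_cast at hxN
    have hNx : |((Algebra.norm ℤ x : ℤ) : ℝ)| = ((q : ℝ) * (n : ℝ)) ^ 3 * ∏ i, |σ i y| := by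
      rw [← prod_embeddings K hK σ hσ x, Finset.abs_prod]
      have h1 : ∀ i, |σ i (x : K)| = ((q : ℝ) * (n : ℝ)) * |σ i y| := by
        intro i
        rw [hxy, map_mul, map_mul, map_natCast, map_natCast, abs_mul,
          abs_of_nonneg (by positivity : (0 : ℝ) ≤ (q : ℝ) * (n : ℝ))]
      simp only [h1, Fin.prod_univ_three]
      ring
    rw [hNx] at hxN
    set W : ℝ := ∏ i, |σ i y| with hW
    have hnp : (0 : ℝ) < (n : ℝ) := by exact_mod_cast Nat.pos_of_ne_zero hn.1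
    have hq1 : (1 : ℝ) ≤ (q : ℝ) := by exact_mod_cast Nat.one_le_iff_ne_zero.mpr hq
    have h6 : (q : ℝ) ^ 6 * (W ^ 2 * (n : ℝ) ^ 3) * (n : ℝ) ^ 6 ≤
        (C * (Ideal.absNorm (J₀ I q) : ℝ) ^ 2) * (n : ℝ) ^ 6 := by
      calc (q : ℝ) ^ 6 * (W ^ 2 * (n : ℝ) ^ 3) * (n : ℝ) ^ 6 =
            (((q : ℝ) * (n : ℝ)) ^ 3 * W) ^ 2 * (n : ℝ) ^ 3 := by ring
        _ ≤ _ := hxN
        _ = _ := by ring
    have h7 := le_of_mul_le_mul_right h6 (by positivity)
    have h8 : (0 : ℝ) ≤ W ^ 2 * (n : ℝ) ^ 3 := by positivity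
    have h9 : (1 : ℝ) ≤ (q : ℝ) ^ 6 := one_le_pow₀ hq1
    nlinarith

end Pool.Agent.MP_ca7d12_nt
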