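import Mathlib

set_option autoImplicit false

namespace Pool.Agent.MP_ca7d12_nt

/-- Modulo `v + c` every element of `ℤ[v]` is an integer. -/
theorem evalU {R : Type*} [CommRing R] (v : R) (c : ℤ) (b : R)
    (hb : b ∈ Subring.closure ({v} : Set R)) :
    ∃ (e : ℤ) (ρ : R), b = (e : R) + (v + (c : R)) * ρ := by
  induction hb using Subring.closure_induction with
  | mem x hx =>
    rw [Set.mem_singleton_iff] at hx
    subst hx
    exact ⟨-c, 1, by push_cast; ring⟩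
  | zero => exact ⟨0, 0, by push_cast; ring⟩
  | one => exact ⟨1, 0, by push_cast; ring⟩
  | add x y _ _ hx hy =>
    obtain ⟨e, ρ, rfl⟩ := hx
    obtain ⟨e', ρ', rfl⟩ := hy
    exact ⟨e + e', ρ + ρ', by push_cast; ring⟩
  | neg x _ hx =>
    obtain ⟨e, ρ, rfl⟩ := hx
    exact ⟨-e, -ρ, by push_cast; ring⟩
  | mul x y _ _ hx hy =>
    obtain ⟨e, ρ, rfl⟩ := hx
    obtain ⟨e', ρ', rfl⟩ := hy
    exact ⟨e * e', (e : R) * ρ' + ρ * (e' : R) + (v + (c : R)) * ρ * ρ', by push_cast; ring⟩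

end Pool.Agent.MP_ca7d12_nt
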