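import Pool.Agent.Lib.MP_ca7d12_nt.V.Defs

set_option autoImplicit false

namespace Pool.Agent.MP_ca7d12_nt

open NumberField

/-- Elements of `ℚ[v]` have a nonzero multiple in `ℤ[v]`. -/
theorem finIndexV_aux (K : Type*) [Field K] [NumberField K] (v : 𝓞 K) (x : K)
    (hx : x ∈ Algebra.adjoin ℚ {(v : K)}) :
    ∃ d : ℕ, d ≠ 0 ∧ ∃ s ∈ Subring.closure ({v} : Set (𝓞 K)), (d : K) * x = (s : K) := by
  induction hx using Algebra.adjoin_induction with
  | mem x hx =>
    refine ⟨1, one_ne_zero, v, Subring.subset_closure rfl, ?_⟩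
    rw [Set.mem_singleton_iff.1 hx]
    simp
  | algebraMap q =>
    refine ⟨q.den, q.den_ne_zero, (q.num : 𝓞 K), intCast_mem _ _, ?_⟩
    have h1 : ((q.den : ℚ) * q) = (q.num : ℚ) := by
      rw [mul_comm]
      exact Rat.mul_den_eq_num q
    have h2 := congrArg (algebraMap ℚ K) h1
    rw [map_mul, map_natCast, map_intCast] at h2
    rw [h2]
    simp
  | add x y _ _ ihx ihy =>
    obtain ⟨d, hd, s, hs, h⟩ := ihx
    obtain ⟨e, he, t, ht, h'⟩ := ihy
    refine ⟨d * e, mul_ne_zero hd he, (e : 𝓞 K) * s + (d : 𝓞 K) * t,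
      add_mem (mul_mem (natCast_mem _ _) hs) (mul_mem (natCast_mem _ _) ht), ?_⟩
    push_cast
    linear_combination (e : K) * h + (d : K) * h'
  | mul x y _ _ ihx ihy =>
    obtain ⟨d, hd, s, hs, h⟩ := ihx
    obtain ⟨e, he, t, ht, h'⟩ := ihy
    refine ⟨d * e, mul_ne_zero hd he, s * t, mul_mem hs ht, ?_⟩
    push_cast
    linear_combination ((e : K) * y) * h + (s : K) * h'

/-- In a cubic field the order `ℤ[v]` has finite index in the ring of integers for every integer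
`v` which is not rational. -/
theorem finIndexV (K : Type*) [Field K] [NumberField K] (hK : Module.finrank ℚ K = 3)
    (v : 𝓞 K) (hv : ∀ c : ℤ, v ≠ (c : 𝓞 K)) :
    ∃ C₁ : ℕ, C₁ ≠ 0 ∧ ∀ r : 𝓞 K, (C₁ : 𝓞 K) * r ∈ Subring.closure ({v} : Set (𝓞 K)) := by
  classical
  have hprime : (Module.finrank ℚ K).Prime := by
    rw [hK]
    exact Nat.prime_three
  have hsimple := Subalgebra.isSimpleOrder_of_finrank_prime ℚ K hprime
  have htop : Algebra.adjoin ℚ {(v : K)} = ⊤ := by
    rcases eq_bot_or_eq_top (Algebra.adjoin ℚ {(v : K)}) with h | h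
    · exfalso
      have hmem : (v : K) ∈ Algebra.adjoin ℚ {(v : K)} := Algebra.subset_adjoin rfl
      rw [h, Algebra.mem_bot] at hmem
      obtain ⟨q, hq⟩ := hmem
      have h4 : IsIntegral ℤ (algebraMap ℚ K q) := by
        rw [hq]
        exact v.isIntegral_coe
      obtain ⟨n, hn⟩ := IsIntegrallyClosed.isIntegral_iff.mp
        ((isIntegral_algebraMap_iff (algebraMap ℚ K).injective).mp h4)
      refine hv n (RingOfIntegers.ext ?_)
      rw [← hq, ← hn]
      simp
    · exact h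
  have hone : ∀ r : 𝓞 K, ∃ d : ℕ, d ≠ 0 ∧ (d : 𝓞 K) * r ∈ Subring.closure ({v} : Set (𝓞 K)) := by
    intro r
    obtain ⟨d, hd, s, hs, h⟩ := finIndexV_aux K v (r : K) (by rw [htop]; exact Algebra.mem_top)
    refine ⟨d, hd, ?_⟩
    have : (d : 𝓞 K) * r = s := by
      apply RingOfIntegers.ext
      push_cast
      exact h
    rw [this]
    exact hs
  choose d hd hmem using hone
  set b := Module.Free.chooseBasis ℤ (𝓞 K) with hb
  refine ⟨∏ i, d (b i), Finset.prod_ne_zero_iff.2 fun i _ => hd _, fun r => ?_⟩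
  rw [← b.sum_repr r, Finset.mul_sum]
  refine sum_mem fun i _ => ?_
  obtain ⟨c, hc⟩ : d (b i) ∣ ∏ i, d (b i) := Finset.dvd_prod_of_mem _ (Finset.mem_univ i)
  have h1 : ((∏ i, d (b i) : ℕ) : 𝓞 K) * (b.repr r i • b i)
      = (b.repr r i : 𝓞 K) * ((c : 𝓞 K) * ((d (b i) : 𝓞 K) * b i)) := by
    rw [hc, zsmul_eq_mul]
    push_cast
    ring
  rw [h1]
  exact mul_mem (intCast_mem _ _) (mul_mem (natCast_mem _ _) (hmem _))

end Pool.Agent.MP_ca7d12_nt
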