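import Pool.Agent.Lib.MP_ca7d12_nt.V.Exact
import Pool.Agent.Lib.MP_ca7d12_nt.W.FinalW

set_option autoImplicit false

namespace Pool.Agent.MP_ca7d12_nt

open NumberField

/-- Cyclic cubic fields: all lattices with conductor supported on a finite set of primes. -/
theorem final_cyclic_V (K : Type*) [Field K] [NumberField K] (hK : Module.finrank ℚ K = 3)
    (hG : IsGalois ℚ K) (σ : Fin 3 → K →+* ℝ) (hσ : Function.Injective σ) (S : Finset ℕ)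
    (hS : ∀ p ∈ S, p.Prime) :
    (∃ V : Finset ℝ, (∀ v ∈ V, 0 < v) ∧ ∀ (α : Fin 3 → K) (n : ℕ), LinearIndependent ℚ α →
      IsSNumber S n → StableUnder K α n → 0 < latticeIndex K α ∧
        markovMin (fun i j => σ i (α j)) * (latticeIndex K α : ℝ) ∈ V) ∧
    ∀ ε : ℝ, 0 < ε → {m : ℝ | ∃ α : Fin 3 → K, LinearIndependent ℚ α ∧
        (∃ n : ℕ, IsSNumber S n ∧ StableUnder K α n) ∧
        m = markovMin (fun i j => σ i (α j)) ∧ ε ≤ m}.Finite :=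
  ⟨finite_products K hK σ hσ S hS (unitsOpen_cyclic_all K hK σ hσ S hS),
    fun ε hε => main_of_unitsOpen K hK σ hσ S hS (unitsOpen_cyclic_all K hK σ hσ S hS) ε hε⟩

namespace FinalV

/-- The square root form of the bounds. -/
theorem sqrt_form (a C x : ℝ) (ha : a ^ 2 ≤ C * x ^ 3) (hC : 0 ≤ C) (hx : 0 ≤ x) :
    a ≤ Real.sqrt C * x ^ (3 / 2 : ℝ) := by
  have h2 : (Real.sqrt C * x ^ (3 / 2 : ℝ)) ^ 2 = C * x ^ 3 := by
    rw [mul_pow, Real.sq_sqrt hC, ← Real.rpow_natCast (x ^ (3 / 2 : ℝ)) 2,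
      ← Real.rpow_mul hx, ← Real.rpow_natCast x 3]
    norm_num
  rw [← h2] at ha
  exact le_of_sq_le_sq_nonneg _ _ (by positivity) ha

end FinalV

open FinalV MainW in
/-- All totally real cubic fields: explicit bounds for all lattices, and finiteness outside the
middle range. -/
theorem final_general_V (K : Type*) [Field K] [NumberField K] (hK : Module.finrank ℚ K = 3)
    (σ : Fin 3 → K →+* ℝ) (hσ : Function.Injective σ) (S : Finset ℕ) (hS : ∀ p ∈ S, p.Prime) :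
    (∃ C : ℝ, ∀ (α : Fin 3 → K) (n : ℕ), LinearIndependent ℚ α → IsSNumber S n →
      IsLevel K α n →
      markovMin (fun i j => σ i (α j)) * (latticeIndex K α : ℝ) ≤ C * (n : ℝ) ^ (3 / 2 : ℝ) ∧
      markovMin (fun i j => σ i (α j)) ^ 2 * (n : ℝ) ^ (3 / 2 : ℝ) ≤
        C * (latticeIndex K α : ℝ)) ∧
    ∀ δ ε : ℝ, 0 < δ → 0 < ε →
      {m : ℝ | ∃ α : Fin 3 → K, LinearIndependent ℚ α ∧
        (∃ n : ℕ, IsSNumber S n ∧ (CyclicModulo K α n ∨ (IsLevel K α n ∧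
          ((n : ℝ) ^ (3 / 2 + δ) ≤ (latticeIndex K α : ℝ) ∨
            (latticeIndex K α : ℝ) ≤ (n : ℝ) ^ (3 / 2 - δ))))) ∧
        m = markovMin (fun i j => σ i (α j)) ∧ ε ≤ m}.Finite := by
  obtain ⟨C, hC0, hC⟩ := bound_general K hK σ hσ S hS
  obtain ⟨C', hC'0, hC'⟩ := bound_dual K hK σ hσ S hS
  have hA : ∀ (α : Fin 3 → K) (n : ℕ), LinearIndependent ℚ α → IsSNumber S n →
      StableUnder K α n →
      markovMin (fun i j => σ i (α j)) * (latticeIndex K α : ℝ) ≤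
        Real.sqrt C * (n : ℝ) ^ (3 / 2 : ℝ) := fun α n hα hn hst =>
    sqrt_form _ C n (hC α n hα hn hst) hC0.le (Nat.cast_nonneg _)
  have hB : ∀ (α : Fin 3 → K) (n : ℕ), LinearIndependent ℚ α → IsSNumber S n →
      IsLevel K α n →
      markovMin (fun i j => σ i (α j)) ^ 2 * (n : ℝ) ^ (3 / 2 : ℝ) ≤
        Real.sqrt C' * (latticeIndex K α : ℝ) := by
    intro α n hα hn hst
    have h1 := hC' α n hα hn hst
    have hn0 : (0 : ℝ) ≤ (n : ℝ) := Nat.cast_nonneg _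
    have h3 : ((n : ℝ) ^ (3 / 2 : ℝ)) ^ 2 = (n : ℝ) ^ 3 := by
      rw [← Real.rpow_natCast ((n : ℝ) ^ (3 / 2 : ℝ)) 2, ← Real.rpow_mul hn0,
        ← Real.rpow_natCast (n : ℝ) 3]
      norm_num
    apply le_of_sq_le_sq_nonneg _ _ (by positivity)
    rw [mul_pow, h3, mul_pow, Real.sq_sqrt hC'0.le, ← pow_mul]
    exact h1
  refine ⟨⟨max (Real.sqrt C) (Real.sqrt C'), fun α n hα hn hlev => ⟨?_, ?_⟩⟩, ?_⟩
  · exact (hA α n hα hn hlev.2.1).trans (mul_le_mul_of_nonneg_right (le_max_left _ _)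
      (by positivity))
  · exact (hB α n hα hn hlev).trans (mul_le_mul_of_nonneg_right (le_max_right _ _)
      (Nat.cast_nonneg _))
  intro δ ε hδ hε
  -- large index
  have keyA : ∀ δ : ℝ, 0 < δ → ∃ B : ℕ, ∀ (α : Fin 3 → K) (n : ℕ), LinearIndependent ℚ α →
      IsSNumber S n → StableUnder K α n → (n : ℝ) ^ (3 / 2 + δ) ≤ (latticeIndex K α : ℝ) →
      ε ≤ markovMin (fun i j => σ i (α j)) → latticeIndex K α ≤ B := by
    intro δ hδ
    set s : ℝ := Real.sqrt C with hs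
    have hs0 : 0 < s := Real.sqrt_pos.mpr hC0
    set N₀ : ℝ := (s / ε) ^ (1 / δ) with hN₀
    have hse : 0 < s / ε := div_pos hs0 hε
    refine ⟨⌊s / ε * N₀ ^ (3 / 2 : ℝ)⌋₊, ?_⟩
    intro α n hα hn hst hidx hm
    have hn0 : (0 : ℝ) < (n : ℝ) := by exact_mod_cast Nat.pos_of_ne_zero hn.1
    have h1 : ε * (latticeIndex K α : ℝ) ≤ s * (n : ℝ) ^ (3 / 2 : ℝ) :=
      (mul_le_mul_of_nonneg_right hm (Nat.cast_nonneg _)).trans (hA α n hα hn hst)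
    have h2 : (latticeIndex K α : ℝ) ≤ s / ε * (n : ℝ) ^ (3 / 2 : ℝ) := by
      rw [div_mul_eq_mul_div, le_div_iff₀ hε]
      linarith
    have h3 : (n : ℝ) ^ δ ≤ s / ε := by
      have h4 : (n : ℝ) ^ (3 / 2 : ℝ) * (n : ℝ) ^ δ ≤ (n : ℝ) ^ (3 / 2 : ℝ) * (s / ε) := by
        rw [← Real.rpow_add hn0]
        calc (n : ℝ) ^ (3 / 2 + δ) ≤ (latticeIndex K α : ℝ) := hidx
          _ ≤ s / ε * (n : ℝ) ^ (3 / 2 : ℝ) := h2
          _ = (n : ℝ) ^ (3 / 2 : ℝ) * (s / ε) := mul_comm _ _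
      exact le_of_mul_le_mul_left h4 (by positivity)
    have h5 : (n : ℝ) ≤ N₀ := by
      rw [hN₀]
      calc (n : ℝ) = ((n : ℝ) ^ δ) ^ (1 / δ) := by
            rw [← Real.rpow_mul hn0.le, mul_one_div_cancel hδ.ne', Real.rpow_one]
        _ ≤ (s / ε) ^ (1 / δ) := Real.rpow_le_rpow (by positivity) h3 (by positivity)
    apply Nat.le_floor
    refine h2.trans ?_
    exact mul_le_mul_of_nonneg_left (Real.rpow_le_rpow hn0.le h5 (by norm_num)) hse.le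
  obtain ⟨B₁, hB₁⟩ := keyA δ hδ
  obtain ⟨B₂, hB₂⟩ := keyA (1 / 2) (by norm_num)
  -- small index
  obtain ⟨B₃, hB₃⟩ : ∃ B : ℕ, ∀ (α : Fin 3 → K) (n : ℕ), LinearIndependent ℚ α →
      IsSNumber S n → IsLevel K α n → (latticeIndex K α : ℝ) ≤ (n : ℝ) ^ (3 / 2 - δ) →
      ε ≤ markovMin (fun i j => σ i (α j)) → latticeIndex K α ≤ B := by
    set s : ℝ := Real.sqrt C' with hs
    have hs0 : 0 < s := Real.sqrt_pos.mpr hC'0
    set N₀ : ℝ := (s / ε ^ 2) ^ (1 / δ) with hN₀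
    refine ⟨⌊N₀ ^ (3 / 2 : ℝ)⌋₊, ?_⟩
    intro α n hα hn hlev hidx hm
    have hn0 : (0 : ℝ) < (n : ℝ) := by exact_mod_cast Nat.pos_of_ne_zero hn.1
    have hn1 : (1 : ℝ) ≤ (n : ℝ) := by exact_mod_cast Nat.one_le_iff_ne_zero.mpr hn.1
    have h1 : ε ^ 2 * (n : ℝ) ^ (3 / 2 : ℝ) ≤ s * (n : ℝ) ^ (3 / 2 - δ) := by
      calc ε ^ 2 * (n : ℝ) ^ (3 / 2 : ℝ)
          ≤ markovMin (fun i j => σ i (α j)) ^ 2 * (n : ℝ) ^ (3 / 2 : ℝ) :=
            mul_le_mul_of_nonneg_right (pow_le_pow_left₀ hε.le hm 2) (by positivity)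
        _ ≤ s * (latticeIndex K α : ℝ) := hB α n hα hn hlev
        _ ≤ s * (n : ℝ) ^ (3 / 2 - δ) := mul_le_mul_of_nonneg_left hidx hs0.le
    have h3 : (n : ℝ) ^ δ ≤ s / ε ^ 2 := by
      rw [le_div_iff₀ (by positivity)]
      have h4 : (n : ℝ) ^ (3 / 2 - δ) * ((n : ℝ) ^ δ * ε ^ 2) ≤ (n : ℝ) ^ (3 / 2 - δ) * s := by
        have h5 : (n : ℝ) ^ (3 / 2 - δ) * (n : ℝ) ^ δ = (n : ℝ) ^ (3 / 2 : ℝ) := by
          rw [← Real.rpow_add hn0]
          congr 1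
          ring
        calc (n : ℝ) ^ (3 / 2 - δ) * ((n : ℝ) ^ δ * ε ^ 2)
            = ((n : ℝ) ^ (3 / 2 - δ) * (n : ℝ) ^ δ) * ε ^ 2 := by ring
          _ = ε ^ 2 * (n : ℝ) ^ (3 / 2 : ℝ) := by rw [h5]; ring
          _ ≤ s * (n : ℝ) ^ (3 / 2 - δ) := h1
          _ = (n : ℝ) ^ (3 / 2 - δ) * s := mul_comm _ _
      exact le_of_mul_le_mul_left h4 (by positivity)
    have h5 : (n : ℝ) ≤ N₀ := by
      rw [hN₀]
      calc (n : ℝ) = ((n : ℝ) ^ δ) ^ (1 / δ) := by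
            rw [← Real.rpow_mul hn0.le, mul_one_div_cancel hδ.ne', Real.rpow_one]
        _ ≤ (s / ε ^ 2) ^ (1 / δ) := Real.rpow_le_rpow (by positivity) h3 (by positivity)
    apply Nat.le_floor
    calc (latticeIndex K α : ℝ) ≤ (n : ℝ) ^ (3 / 2 - δ) := hidx
      _ ≤ (n : ℝ) ^ (3 / 2 : ℝ) := Real.rpow_le_rpow_of_exponent_le hn1 (by linarith)
      _ ≤ N₀ ^ (3 / 2 : ℝ) := Real.rpow_le_rpow hn0.le h5 (by norm_num)
  obtain ⟨-, hV⟩ := finite_of_index K hK σ hσ (B₁ + B₂ + B₃)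
  refine (hV ε hε).subset ?_
  rintro m ⟨α, hα, ⟨n, hn, hcase⟩, hm, hεm⟩
  rcases hcase with hcy | ⟨hlev, h | h⟩
  · refine ⟨α, n, hα, hn.1, hcy.1, ?_, hm, hεm⟩
    have h1 : n ^ 2 ≤ latticeIndex K α := latticeIndex_ge K hK α n hn.1 hα hcy
    have h2 : (n : ℝ) ^ (3 / 2 + 1 / 2 : ℝ) ≤ (latticeIndex K α : ℝ) := by
      have h3 : (n : ℝ) ^ (3 / 2 + 1 / 2 : ℝ) = (n : ℝ) ^ 2 := by
        rw [← Real.rpow_natCast (n : ℝ) 2]
        norm_num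
      rw [h3]
      exact_mod_cast h1
    have := hB₂ α n hα hn hcy.1 h2 (hm ▸ hεm)
    omega
  · refine ⟨α, n, hα, hn.1, hlev.2.1, ?_, hm, hεm⟩
    have := hB₁ α n hα hn hlev.2.1 h (hm ▸ hεm)
    omega
  · refine ⟨α, n, hα, hn.1, hlev.2.1, ?_, hm, hεm⟩
    have := hB₃ α n hα hn hlev h (hm ▸ hεm)
    omega

end Pool.Agent.MP_ca7d12_nt
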