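import Mathlib

set_option autoImplicit false

namespace Pool.Agent.MP_ca7d12_nt

private theorem genV_sub {R : Type*} [CommRing R] (P r : ℤ) (v y : R)
    (hy : y ∈ Subring.closure ({v} : Set R)) :
    Subring.closure ({(r : R) * v + (P : R) * y} : Set R) ≤ Subring.closure ({v} : Set R) := by
  rw [Subring.closure_le, Set.singleton_subset_iff, SetLike.mem_coe]
  have hv : v ∈ Subring.closure ({v} : Set R) := Subring.subset_closure (Set.mem_singleton v)
  exact add_mem (mul_mem (intCast_mem _ r) hv) (mul_mem (intCast_mem _ P) hy)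

private theorem genV_one {R : Type*} [CommRing R] (P r : ℤ) (hr : IsCoprime r P) (v y : R)
    (hy : y ∈ Subring.closure ({v} : Set R)) (a : R)
    (ha : a ∈ Subring.closure ({v} : Set R)) :
    ∃ b ∈ Subring.closure ({(r : R) * v + (P : R) * y} : Set R),
      ∃ ρ ∈ Subring.closure ({v} : Set R), a = b + (P : R) * ρ := by
  have hsub := genV_sub P r v y hy
  have hv : v ∈ Subring.closure ({v} : Set R) := Subring.subset_closure (Set.mem_singleton v)
  induction ha using Subring.closure_induction with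
  | mem x hx =>
    rw [Set.mem_singleton_iff] at hx
    subst hx
    obtain ⟨κ, l, hκ⟩ := hr
    have h1 : (κ : R) * (r : R) + (l : R) * (P : R) = 1 := by exact_mod_cast congrArg (Int.cast (R := R)) hκ
    refine ⟨(κ : R) * ((r : R) * x + (P : R) * y),
      mul_mem (intCast_mem _ κ) (Subring.subset_closure (Set.mem_singleton _)),
      (l : R) * x - (κ : R) * y,
      sub_mem (mul_mem (intCast_mem _ l) hv) (mul_mem (intCast_mem _ κ) hy), ?_⟩
    linear_combination (-x) * h1
  | zero => exact ⟨0, zero_mem _, 0, zero_mem _, by ring⟩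
  | one => exact ⟨1, one_mem _, 0, zero_mem _, by ring⟩
  | add x x' _ _ h1 h2 =>
    obtain ⟨b, hb, ρ, hρ, rfl⟩ := h1
    obtain ⟨b', hb', ρ', hρ', rfl⟩ := h2
    exact ⟨b + b', add_mem hb hb', ρ + ρ', add_mem hρ hρ', by ring⟩
  | neg x _ h1 =>
    obtain ⟨b, hb, ρ, hρ, rfl⟩ := h1
    exact ⟨-b, neg_mem hb, -ρ, neg_mem hρ, by ring⟩
  | mul x x' _ _ h1 h2 =>
    obtain ⟨b, hb, ρ, hρ, rfl⟩ := h1
    obtain ⟨b', hb', ρ', hρ', rfl⟩ := h2
    refine ⟨b * b', mul_mem hb hb', b * ρ' + ρ * b' + (P : R) * (ρ * ρ'),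
      add_mem (add_mem (mul_mem (hsub hb) hρ') (mul_mem hρ (hsub hb')))
        (mul_mem (intCast_mem _ P) (mul_mem hρ hρ')), by ring⟩

/-- If `v' = r v + P y` with `r` coprime to `P` and `y` in `ℤ[v]` then `ℤ[v]` is contained in
`ℤ[v'] + P ^ k R`. -/
theorem genV {R : Type*} [CommRing R] (P r : ℤ) (hr : IsCoprime r P) (v y : R)
    (hy : y ∈ Subring.closure ({v} : Set R)) (k : ℕ) (a : R)
    (ha : a ∈ Subring.closure ({v} : Set R)) :
    ∃ b ∈ Subring.closure ({(r : R) * v + (P : R) * y} : Set R), ∃ ρ : R,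
      a = b + (P : R) ^ k * ρ := by
  have key : ∀ k : ℕ, ∃ b ∈ Subring.closure ({(r : R) * v + (P : R) * y} : Set R),
      ∃ ρ ∈ Subring.closure ({v} : Set R), a = b + (P : R) ^ k * ρ := by
    intro k
    induction k with
    | zero => exact ⟨0, zero_mem _, a, ha, by ring⟩
    | succ k ih =>
      obtain ⟨b, hb, ρ, hρ, h1⟩ := ih
      obtain ⟨b', hb', ρ', hρ', h2⟩ := genV_one P r hr v y hy ρ hρ
      refine ⟨b + (P : R) ^ k * b', add_mem hb (mul_mem (pow_mem (intCast_mem _ P) k) hb'),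
        ρ', hρ', ?_⟩
      rw [h1, h2]
      ring
  obtain ⟨b, hb, ρ, -, h⟩ := key k
  exact ⟨b, hb, ρ, h⟩

end Pool.Agent.MP_ca7d12_nt
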