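import Pool.Agent.Lib.MP_ca7d12_nt.V.Defs
import Pool.Agent.Lib.MP_ca7d12_nt.T.IndexLL

set_option autoImplicit false

namespace Pool.Agent.MP_ca7d12_nt

open NumberField

private theorem IndexV_small {n a A c c' : ℕ} (hA : ∀ c < A, a * c < n) (ha : a ≠ 0)
    (hc : c < A) (hc' : c' < A) (h : (n : ℤ) ∣ a * ((c' : ℤ) - c)) : c = c' := by
  have h1 := hA c hc
  have h2 := hA c' hc'
  have h3 : |(a : ℤ) * ((c' : ℤ) - c)| < n := by
    rw [abs_lt]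
    have h4 : ((a * c : ℕ) : ℤ) < n := by exact_mod_cast h1
    have h5 : ((a * c' : ℕ) : ℤ) < n := by exact_mod_cast h2
    push_cast at h4 h5
    have h6 : (0 : ℤ) ≤ a * c := by positivity
    have h7 : (0 : ℤ) ≤ a * c' := by positivity
    constructor
    · rw [mul_sub]
      linarith
    · rw [mul_sub]
      linarith
  have h8 := Int.eq_zero_of_abs_lt_dvd h h3
  rcases mul_eq_zero.1 h8 with h9 | h9
  · exact absurd (by exact_mod_cast h9) ha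
  · omega

private theorem IndexV_ceil (n : ℕ) {a : ℕ} (ha : a ≠ 0) :
    ∃ A : ℕ, (∀ c < A, a * c < n) ∧ n ≤ a * A := by
  refine ⟨(n + a - 1) / a, fun c hc => ?_, ?_⟩
  · have h1 : c + 1 ≤ (n + a - 1) / a := hc
    rw [Nat.le_div_iff_mul_le (Nat.pos_of_ne_zero ha)] at h1
    have h2 : (c + 1) * a = a * c + a := by ring
    omega
  · have h1 := Nat.lt_mul_div_succ (n + a - 1) (Nat.pos_of_ne_zero ha)
    have h2 : a * ((n + a - 1) / a + 1) = a * ((n + a - 1) / a) + a := by ring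
    omega

/-- The index of `LLJ`. (Same proof as `index_LL` in `T/IndexLL.lean`.) -/
theorem index_LLJ (K : Type*) [Field K] [NumberField K] (J : Ideal (𝓞 K)) (hJ : J ≠ ⊥)
    (n : ℕ) (hn : n ≠ 0) (C₂ : ℕ) (hC₂ : C₂ ≠ 0) (g v : 𝓞 K) (a b : ℕ) (ha : a ≠ 0) (hb : b ≠ 0)
    (hind : ∀ c t : ℤ, g * ((c : 𝓞 K) + (t : 𝓞 K) * v) ∈ J →
      (n : ℤ) ∣ (C₂ : ℤ) * c ∧ (n : ℤ) ∣ (C₂ : ℤ) * t) :
    (LLJ K J g v a b).index ≠ 0 ∧
      (LLJ K J g v a b).index * n ^ 2 ≤ Ideal.absNorm J * ((C₂ * a) * (C₂ * b)) := by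
  classical
  have hJidx : (Submodule.toAddSubgroup J).index = Ideal.absNorm J := rfl
  have hJ0 : Ideal.absNorm J ≠ 0 := fun h => hJ (Ideal.absNorm_eq_zero_iff.1 h)
  have hle : Submodule.toAddSubgroup J ≤ LLJ K J g v a b := by
    intro x hx
    exact ⟨0, 0, x, hx, by push_cast; ring⟩
  have hmul := AddSubgroup.relIndex_mul_index hle
  rw [hJidx] at hmul
  have hne : (Submodule.toAddSubgroup J).relIndex (LLJ K J g v a b) *
      (LLJ K J g v a b).index ≠ 0 := by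
    rw [hmul]
    exact hJ0
  have hne1 := left_ne_zero_of_mul hne
  have hne2 := right_ne_zero_of_mul hne
  refine ⟨hne2, ?_⟩
  have ha' : C₂ * a ≠ 0 := mul_ne_zero hC₂ ha
  have hb' : C₂ * b ≠ 0 := mul_ne_zero hC₂ hb
  obtain ⟨A, hA1, hA2⟩ := IndexV_ceil n ha'
  obtain ⟨B, hB1, hB2⟩ := IndexV_ceil n hb'
  have hin : ∀ c t : ℤ, g * ((a : 𝓞 K) * (c : 𝓞 K) + (b : 𝓞 K) * (t : 𝓞 K) * v) ∈
      LLJ K J g v a b := fun c t => ⟨c, t, 0, J.zero_mem, by ring⟩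
  let φ : Fin A × Fin B → (LLJ K J g v a b) ⧸
      ((Submodule.toAddSubgroup J).addSubgroupOf (LLJ K J g v a b)) := fun p =>
    QuotientAddGroup.mk ⟨_, hin (p.1 : ℕ) (p.2 : ℕ)⟩
  have hinj : Function.Injective φ := by
    rintro ⟨c, t⟩ ⟨c', t'⟩ h
    have h1 := QuotientAddGroup.eq.1 h
    have h2 : -(g * ((a : 𝓞 K) * (((c : ℕ) : ℤ) : 𝓞 K) + (b : 𝓞 K) * (((t : ℕ) : ℤ) : 𝓞 K) * v)) +
        g * ((a : 𝓞 K) * (((c' : ℕ) : ℤ) : 𝓞 K) + (b : 𝓞 K) * (((t' : ℕ) : ℤ) : 𝓞 K) * v) ∈ J :=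
      AddSubgroup.mem_addSubgroupOf.1 h1
    have h3 : g * (((a : ℤ) * ((c' : ℕ) - (c : ℕ) : ℤ) : ℤ) +
        (((b : ℤ) * ((t' : ℕ) - (t : ℕ) : ℤ) : ℤ) : 𝓞 K) * v) ∈ J := by
      have e : g * (((a : ℤ) * ((c' : ℕ) - (c : ℕ) : ℤ) : ℤ) +
        (((b : ℤ) * ((t' : ℕ) - (t : ℕ) : ℤ) : ℤ) : 𝓞 K) * v) =
        -(g * ((a : 𝓞 K) * (((c : ℕ) : ℤ) : 𝓞 K) + (b : 𝓞 K) * (((t : ℕ) : ℤ) : 𝓞 K) * v)) +
        g * ((a : 𝓞 K) * (((c' : ℕ) : ℤ) : 𝓞 K) +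
          (b : 𝓞 K) * (((t' : ℕ) : ℤ) : 𝓞 K) * v) := by
        push_cast
        ring
      rw [e]
      exact h2
    obtain ⟨h5, h6⟩ := hind _ _ h3
    rw [← mul_assoc] at h5 h6
    have h7 := IndexV_small hA1 ha' c.2 c'.2 (by push_cast; exact h5)
    have h8 := IndexV_small hB1 hb' t.2 t'.2 (by push_cast; exact h6)
    exact Prod.ext (Fin.ext h7) (Fin.ext h8)
  have hfin : Finite ((LLJ K J g v a b) ⧸
      ((Submodule.toAddSubgroup J).addSubgroupOf (LLJ K J g v a b))) :=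
    Nat.finite_of_card_ne_zero hne1
  have hcard : A * B ≤ (Submodule.toAddSubgroup J).relIndex (LLJ K J g v a b) := by
    have := Nat.card_le_card_of_injective φ hinj
    rw [Nat.card_prod, Nat.card_fin, Nat.card_fin] at this
    exact this
  set R := (Submodule.toAddSubgroup J).relIndex (LLJ K J g v a b) with hR
  set L := (LLJ K J g v a b).index with hL
  have h1 : n * n ≤ ((C₂ * a) * (C₂ * b)) * R := by
    calc n * n ≤ ((C₂ * a) * A) * ((C₂ * b) * B) := Nat.mul_le_mul hA2 hB2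
      _ = ((C₂ * a) * (C₂ * b)) * (A * B) := by ring
      _ ≤ ((C₂ * a) * (C₂ * b)) * R := Nat.mul_le_mul_left _ hcard
  calc L * n ^ 2 = (n * n) * L := by ring
    _ ≤ (((C₂ * a) * (C₂ * b)) * R) * L := Nat.mul_le_mul_right _ h1
    _ = (R * L) * ((C₂ * a) * (C₂ * b)) := by ring
    _ = Ideal.absNorm J * ((C₂ * a) * (C₂ * b)) := by rw [hmul]

end Pool.Agent.MP_ca7d12_nt
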