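import Mathlib

set_option autoImplicit false

namespace Pool.Agent.MP_ca7d12_nt

/-- Key congruence: if `g (c + t v')` is in the ideal `J` then `n` divides a bounded multiple of `c`
and of `t`. -/
theorem kOne {R : Type*} [CommRing R] (I J : Ideal R) (M : AddSubgroup R) (n : ℕ) (hn : n ≠ 0)
    (H C₁ : ℕ) (g v' : R) (hgM : g ∈ M) (hgI : g ∈ I) (hJM : ∀ x ∈ J, x ∈ M)
    (hnJ : ∀ y ∈ I, (n : R) * y ∈ J)
    (hmin : ∀ a : ℤ, (∀ y ∈ I, (a : R) * y ∈ M) → (n : ℤ) ∣ a)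
    (hgen : ∀ y ∈ I, ∃ z : R, ∃ y' ∈ I, (H : R) * y = g * z + (n : R) * y')
    (hV : ∀ (c : ℤ) (r : R), ∃ (e : ℤ) (ρ ρ' : R),
      (C₁ : R) * r = (e : R) + (v' + (c : R)) * ρ + (n : R) * ρ')
    (c t : ℤ) (h : g * ((c : R) + (t : R) * v') ∈ J) :
    (n : ℤ) ∣ ((C₁ * H ^ 3 : ℕ) : ℤ) * c ∧ (n : ℤ) ∣ ((C₁ * H ^ 3 : ℕ) : ℤ) * t := by
  have hn' : (n : ℤ) ≠ 0 := by exact_mod_cast hn
  -- `H w I ⊆ J`
  have hw : ∀ y ∈ I, (H : R) * ((c : R) + (t : R) * v') * y ∈ J := by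
    intro y hy
    obtain ⟨z, y', hy', hzy⟩ := hgen y hy
    have e1 : (H : R) * ((c : R) + (t : R) * v') * y =
        g * ((c : R) + (t : R) * v') * z + (n : R) * (((c : R) + (t : R) * v') * y') := by
      linear_combination ((c : R) + (t : R) * v') * hzy
    rw [e1]
    exact J.add_mem (J.mul_mem_right _ h) (hnJ _ (I.mul_mem_left _ hy'))
  set d : ℕ := Int.gcd ((H : ℤ) * t) n with hd
  obtain ⟨t₂, ht₂⟩ : (d : ℤ) ∣ (H : ℤ) * t := Int.gcd_dvd_left _ _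
  obtain ⟨n₁, hn₁⟩ : (d : ℤ) ∣ (n : ℤ) := Int.gcd_dvd_right _ _
  have hd0 : (d : ℤ) ≠ 0 := by
    intro h0
    rw [h0, zero_mul] at hn₁
    exact hn' hn₁
  obtain ⟨a, b, hab⟩ : ∃ a b : ℤ, (d : ℤ) = a * ((H : ℤ) * t) + b * n := by
    refine ⟨Int.gcdA ((H : ℤ) * t) n, Int.gcdB ((H : ℤ) * t) n, ?_⟩
    rw [hd, Int.gcd_eq_gcd_ab]
    ring
  have habR : ((d : ℤ) : R) = (a : R) * ((H : R) * (t : R)) + (b : R) * (n : R) := by
    have := congrArg (fun z : ℤ => (z : R)) hab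
    push_cast at this ⊢
    exact this
  have hw2 : ∀ y ∈ I, ((a : R) * ((H : R) * (c : R)) + ((d : ℤ) : R) * v') * y ∈ J := by
    intro y hy
    have e1 : ((a : R) * ((H : R) * (c : R)) + ((d : ℤ) : R) * v') * y =
        (a : R) * ((H : R) * ((c : R) + (t : R) * v') * y) + (n : R) * ((b : R) * v' * y) := by
      rw [habR]
      ring
    rw [e1]
    exact J.add_mem (J.mul_mem_left _ (hw y hy)) (hnJ _ (I.mul_mem_left _ hy))
  have hnn₁ : (n : R) = ((d : ℤ) : R) * (n₁ : R) := by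
    have := congrArg (fun z : ℤ => (z : R)) hn₁
    push_cast at this ⊢
    exact this
  -- `d` divides `a H c`
  obtain ⟨c₂, hc₂⟩ : (d : ℤ) ∣ a * ((H : ℤ) * c) := by
    have h1 : (n : ℤ) ∣ n₁ * (a * ((H : ℤ) * c)) := by
      refine hmin _ fun y hy => hJM _ ?_
      have e1 : ((n₁ * (a * ((H : ℤ) * c)) : ℤ) : R) * y =
          (n₁ : R) * (((a : R) * ((H : R) * (c : R)) + ((d : ℤ) : R) * v') * y) +
            (n : R) * (-(v' * y)) := by
        rw [hnn₁]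
        push_cast
        ring
      rw [e1]
      exact J.add_mem (J.mul_mem_left _ (hw2 y hy)) (hnJ _ (I.neg_mem (I.mul_mem_left _ hy)))
    rw [hn₁, mul_comm (d : ℤ) n₁] at h1
    have hn₁0 : n₁ ≠ 0 := by
      rintro rfl
      rw [mul_zero] at hn₁
      exact hn' hn₁
    exact (mul_dvd_mul_iff_left hn₁0).1 h1
  have hc₂R : (a : R) * ((H : R) * (c : R)) = ((d : ℤ) : R) * (c₂ : R) := by
    have := congrArg (fun z : ℤ => (z : R)) hc₂
    push_cast at this ⊢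
    exact this
  have hu : ∀ y ∈ I, ((d : ℤ) : R) * (v' + (c₂ : R)) * y ∈ J := by
    intro y hy
    have e1 : ((d : ℤ) : R) * (v' + (c₂ : R)) * y =
        ((a : R) * ((H : R) * (c : R)) + ((d : ℤ) : R) * v') * y := by
      rw [hc₂R]
      ring
    rw [e1]
    exact hw2 y hy
  have hCdg : ∀ r : R, (C₁ : R) * ((d : ℤ) : R) * (g * r) ∈ M := by
    intro r
    obtain ⟨e, ρ, ρ', hr⟩ := hV c₂ r
    have e1 : (C₁ : R) * ((d : ℤ) : R) * (g * r) = ((d : ℤ) * e) • g +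
        (((d : ℤ) : R) * (v' + (c₂ : R)) * (g * ρ) + (n : R) * (((d : ℤ) : R) * g * ρ')) := by
      rw [zsmul_eq_mul]
      push_cast
      linear_combination ((d : R) * g) * hr
    rw [e1]
    refine M.add_mem (M.zsmul_mem hgM _) (hJM _ (J.add_mem (hu _ (I.mul_mem_right _ hgI))
      (hnJ _ (I.mul_mem_right _ (I.mul_mem_left _ hgI)))))
  have hdvd : (n : ℤ) ∣ (C₁ : ℤ) * d * H := by
    refine hmin _ fun y hy => ?_
    obtain ⟨z, y', hy', hzy⟩ := hgen y hy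
    have e1 : (((C₁ : ℤ) * d * H : ℤ) : R) * y = (C₁ : R) * ((d : ℤ) : R) * (g * z) +
        (n : R) * ((C₁ : R) * ((d : ℤ) : R) * y') := by
      push_cast
      linear_combination ((C₁ : R) * (d : R)) * hzy
    rw [e1]
    exact M.add_mem (hCdg z) (hJM _ (hnJ _ (I.mul_mem_left _ hy')))
  -- conclusion for `t`
  have ht : (n : ℤ) ∣ (C₁ : ℤ) * H ^ 2 * t := by
    have e1 : (C₁ : ℤ) * H ^ 2 * t = (C₁ : ℤ) * d * H * t₂ := by
      linear_combination ((C₁ : ℤ) * H) * ht₂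
    rw [e1]
    exact hdvd.mul_right _
  constructor
  · obtain ⟨q, hq⟩ := ht
    have hqR : (C₁ : R) * (H : R) ^ 2 * (t : R) = (n : R) * (q : R) := by
      have := congrArg (fun z : ℤ => (z : R)) hq
      push_cast at this ⊢
      exact this
    refine hmin _ fun y hy => hJM _ ?_
    have e1 : (((C₁ * H ^ 3 : ℕ) : ℤ) * c : ℤ) * y = (C₁ : R) * (H : R) ^ 2 *
        ((H : R) * ((c : R) + (t : R) * v') * y) + (n : R) * (-((H : R) * (q : R) * v' * y)) := by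
      push_cast
      linear_combination (-((H : R) * v' * y)) * hqR
    rw [e1]
    exact J.add_mem (J.mul_mem_left _ (hw y hy)) (hnJ _ (I.neg_mem (I.mul_mem_left _ hy)))
  · have e1 : ((C₁ * H ^ 3 : ℕ) : ℤ) * t = (C₁ : ℤ) * H ^ 2 * t * H := by
      push_cast
      ring
    rw [e1]
    exact ht.mul_right _

end Pool.Agent.MP_ca7d12_nt
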