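import Pool.Agent.Lib.MP_ca7d12_nt.T.LevelS

set_option autoImplicit false

namespace Pool.Agent.MP_ca7d12_nt

/-- Raising the level of a unit, inside a subring `A` containing `v`. -/
theorem levelA {R : Type*} [CommRing R] (hR : ∀ q : ℤ, IsUnit (q : R) → IsUnit q)
    (A : Subring R) (P D : ℤ) (hP0 : P ≠ 0) (hPD : P ^ 2 ∣ D) (η : Rˣ) (c : ℤ) (v : R)
    (hv : v ∈ A) (h : (η : R) = (c : R) + (D : R) * v) (s : ℕ) (hs0 : s ≠ 0)
    (hs : ∀ p : ℕ, p.Prime → p ∣ s → (p : ℤ) ∣ P) :
    ∃ (η' : Rˣ) (c' r : ℤ) (y : R), y ∈ A ∧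
      (η' : R) = (c' : R) + (D : R) * (s : R) * ((r : R) * v + (P : R) * y) ∧
      IsCoprime c' D ∧ IsCoprime r P := by
  induction s using Nat.strong_induction_on with
  | _ s ih =>
    by_cases h1 : s = 1
    · subst h1
      refine ⟨η, c, 1, 0, A.zero_mem, by rw [h]; push_cast; ring, ?_, isCoprime_one_left⟩
      exact UnitsA.coprime_of_unit hR c D (η : R) v η.isUnit ⟨1, by rw [h]; ring⟩
    · have hq := Nat.minFac_prime h1
      set p := s.minFac with hp
      obtain ⟨s', hs'⟩ := Nat.minFac_dvd s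
      rw [← hp] at hs'
      have hs'0 : s' ≠ 0 := by
        rintro rfl
        rw [mul_zero] at hs'
        exact hs0 hs'
      have hlt : s' < s := by
        have h2 := hq.two_le
        calc s' < 2 * s' := by omega
          _ ≤ p * s' := Nat.mul_le_mul_right _ h2
          _ = s := hs'.symm
      obtain ⟨η', c', r, y, hyA, h3, h4, h5⟩ := ih s' hlt hs'0 (fun q hqp hqs => hs q hqp (by
        rw [hs']; exact hqs.mul_left _))
      have hpP : (p : ℤ) ∣ P := hs p hq (by rw [hs']; exact Dvd.intro _ rfl)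
      obtain ⟨D', hD'⟩ : P * (p : ℤ) ∣ D := by
        refine Dvd.dvd.trans ?_ hPD
        rw [pow_two]
        exact mul_dvd_mul_left P hpP
      have hcP : IsCoprime c' P := h4.of_isCoprime_of_dvd_right
        ((Dvd.intro _ rfl : P ∣ P * (p : ℤ)).trans ⟨D', hD'⟩)
      have hYA : (r : R) * v + (P : R) * y ∈ A :=
        A.add_mem (A.mul_mem (intCast_mem A r) hv) (A.mul_mem (intCast_mem A P) hyA)
      set Y : R := (r : R) * v + (P : R) * y with hY
      obtain ⟨e', he'⟩ := Polynomial.powAddExpansion (c' : A)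
        ((D : A) * (s' : A) * (⟨Y, hYA⟩ : A)) p
      obtain ⟨e, hee⟩ : ∃ e : R, e = (e' : R) := ⟨_, rfl⟩
      have heA : e ∈ A := by
        rw [hee]
        exact e'.2
      have he : ((c' : R) + (D : R) * (s' : R) * Y) ^ p = (c' : R) ^ p +
          (p : R) * (c' : R) ^ (p - 1) * ((D : R) * (s' : R) * Y) +
            e * ((D : R) * (s' : R) * Y) ^ 2 := by
        have h6 := congrArg (Subtype.val : A → R) he'
        rw [hee]
        simpa using h6
      refine ⟨η' ^ p, c' ^ p, c' ^ (p - 1) * r,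
        (c' : R) ^ (p - 1) * y + e * (D' : R) * (s' : R) * Y ^ 2, ?_, ?_, h4.pow_left, ?_⟩
      · refine A.add_mem (A.mul_mem (A.pow_mem (intCast_mem A c') _) hyA) ?_
        exact A.mul_mem (A.mul_mem (A.mul_mem heA (intCast_mem A D')) (natCast_mem A s'))
          (A.pow_mem hYA 2)
      · have hD2 : (D : R) = (P : R) * (p : R) * (D' : R) := by
          rw [hD']; push_cast; ring
        have hs2 : (s : R) = (p : R) * (s' : R) := by
          rw [hs']; push_cast; ring
        have h6 : e * ((D : R) * (s' : R) * Y) ^ 2 =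
            (D : R) * (s : R) * ((P : R) * (e * (D' : R) * (s' : R) * Y ^ 2)) := by
          rw [hs2]
          linear_combination (e * (D : R) * (s' : R) ^ 2 * Y ^ 2) * hD2
        rw [Units.val_pow_eq_pow_val, h3, he, h6, hs2]
        push_cast
        rw [hY]
        ring
      · exact (hcP.pow_left).mul_left h5

end Pool.Agent.MP_ca7d12_nt
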