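import Pool.Agent.Lib.MP_ca7d12_nt.V.KOne
import Pool.Agent.Lib.MP_ca7d12_nt.V.LevelA
import Pool.Agent.Lib.MP_ca7d12_nt.V.GenV
import Pool.Agent.Lib.MP_ca7d12_nt.V.EvalU
import Pool.Agent.Lib.MP_ca7d12_nt.V.FinIndex
import Pool.Agent.Lib.MP_ca7d12_nt.V.IndexV
import Pool.Agent.Lib.MP_ca7d12_nt.T.KeyT

set_option autoImplicit false

namespace Pool.Agent.MP_ca7d12_nt

open NumberField

/-- Key lemma, refined form. `M` generates `I`, contains the ideal `J ⊇ n I`, and `n` is minimal. Then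
`M` contains a nonzero element of norm at most `C absNorm J / n ^ (3/2)`. -/
theorem exists_small_V (K : Type*) [Field K] [NumberField K] (hK : Module.finrank ℚ K = 3)
    (σ : Fin 3 → K →+* ℝ) (hσ : Function.Injective σ) (S : Finset ℕ) (hS : ∀ p ∈ S, p.Prime) :
    ∃ C : ℝ, 0 < C ∧ ∀ (n : ℕ), IsSNumber S n → ∀ (I J : Ideal (𝓞 K)) (M : AddSubgroup (𝓞 K)),
      I ≠ ⊥ → J ≠ ⊥ → Ideal.span (M : Set (𝓞 K)) = I → (∀ x ∈ J, x ∈ M) →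
      (∀ y ∈ I, (n : 𝓞 K) * y ∈ J) →
      (∀ a : ℤ, (∀ y ∈ I, (a : 𝓞 K) * y ∈ M) → (n : ℤ) ∣ a) →
      ∃ x ∈ M, x ≠ 0 ∧ ((|Algebra.norm ℤ x| : ℤ) : ℝ) ^ 2 * (n : ℝ) ^ 3 ≤
        C * (Ideal.absNorm J : ℝ) ^ 2 := by
  obtain ⟨η₀, hη₀⟩ := exists_unit K hK σ hσ
  have hR : ∀ q : ℤ, IsUnit (q : 𝓞 K) → IsUnit q := isUnit_of_isUnit_intCast K
  set P : ℤ := ∏ p ∈ S, (p : ℤ) with hP
  set PN : ℕ := ∏ p ∈ S, p with hPN
  have hPPN : P = (PN : ℤ) := by rw [hP, hPN]; push_cast; rfl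
  have hPN0 : PN ≠ 0 := Finset.prod_ne_zero_iff.mpr fun p hp => (hS p hp).ne_zero
  have hP0 : P ≠ 0 := by rw [hPPN]; exact_mod_cast hPN0
  have hSP : ∀ p ∈ S, (p : ℤ) ∣ P := fun p hp => by
    rw [hP]
    exact Finset.dvd_prod_of_mem (fun p : ℕ => (p : ℤ)) hp
  obtain ⟨η, c₀, D, v, hD, hPD, hη, hprim⟩ :=
    exists_level K η₀ hη₀ (P ^ 2) (pow_ne_zero 2 hP0)
  have hvnot : ∀ c : ℤ, v ≠ (c : 𝓞 K) := fun c hc => hprim 2 Nat.prime_two c 0 (by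
    rw [hc, mul_zero, add_zero])
  obtain ⟨C₁, hC₁, hfin⟩ := finIndexV K hK v hvnot
  obtain ⟨C₀, hC₀, hcoset⟩ := small_in_coset K hK σ hσ
  obtain ⟨δ, hδ, hmink⟩ := minkowski_sub K hK σ hσ
  obtain ⟨h, hav⟩ := exists_avoid K P hP0
  set H : ℕ := PN ^ h with hH
  have hH0 : H ≠ 0 := pow_ne_zero _ hPN0
  set C₂ : ℕ := C₁ * H ^ 3 with hC₂
  have hC₂0 : C₂ ≠ 0 := mul_ne_zero hC₁ (pow_ne_zero _ hH0)
  set B : ℝ := C₀ * ((C₂ : ℝ) * (PN : ℝ) * ((C₂ : ℝ) * (D.natAbs : ℝ))) with hB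
  set A : ℝ := (2 * δ) ^ 2 * (C₂ : ℝ) ^ 3 with hA
  have hA0 : 0 ≤ A := by positivity
  refine ⟨B ^ 2 * PN + A + 1, by positivity, ?_⟩
  rintro n ⟨hn0, hnS⟩ I J M hI hJ hM hJM hnJ hmin
  have hNJ0 : Ideal.absNorm J ≠ 0 := fun h => hJ (Ideal.absNorm_eq_zero_iff.1 h)
  have hNJ : (0 : ℝ) < (Ideal.absNorm J : ℝ) := by
    exact_mod_cast Nat.pos_of_ne_zero hNJ0
  have hJi : (Submodule.toAddSubgroup J).index = Ideal.absNorm J := rfl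
  have hNJ2 : (0 : ℝ) ≤ (Ideal.absNorm J : ℝ) ^ 2 := by positivity
  by_cases hn : n ∣ C₂
  · obtain ⟨ξ, hξJ, hξ0, hξ⟩ := hmink (Submodule.toAddSubgroup J) (by rw [hJi]; exact hNJ0)
      ![1, 1, 2 * δ * (Ideal.absNorm J : ℝ)] (by
        intro i
        fin_cases i
        · exact one_pos
        · exact one_pos
        · show 0 < 2 * δ * (Ideal.absNorm J : ℝ)
          positivity) (by
        rw [hJi, Fin.prod_univ_three]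
        show δ * (Ideal.absNorm J : ℝ) < 1 * 1 * (2 * δ * (Ideal.absNorm J : ℝ))
        nlinarith [mul_pos hδ hNJ])
    refine ⟨ξ, hJM ξ hξJ, hξ0, ?_⟩
    have h1 : ((|Algebra.norm ℤ ξ| : ℤ) : ℝ) ≤ 2 * δ * (Ideal.absNorm J : ℝ) := by
      have e1 : ((|Algebra.norm ℤ ξ| : ℤ) : ℝ) = ∏ i, |σ i (ξ : K)| := by
        rw [← Finset.abs_prod, prod_embeddings K hK σ hσ ξ]
        push_cast
        rfl
      have h0 := hξ 0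
      have h1 := hξ 1
      have h2 := hξ 2
      simp only [Matrix.cons_val_zero, Matrix.cons_val_one, Matrix.cons_val] at h0 h1 h2
      rw [e1, Fin.prod_univ_three]
      have h01 : |σ 0 (ξ : K)| * |σ 1 (ξ : K)| ≤ 1 :=
        mul_le_one₀ h0.le (abs_nonneg _) h1.le
      calc |σ 0 (ξ : K)| * |σ 1 (ξ : K)| * |σ 2 (ξ : K)| ≤ 1 * (2 * δ * (Ideal.absNorm J : ℝ)) :=
            mul_le_mul h01 h2.le (abs_nonneg _) zero_le_one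
        _ = _ := one_mul _
    have h0 : (0 : ℝ) ≤ ((|Algebra.norm ℤ ξ| : ℤ) : ℝ) := by exact_mod_cast abs_nonneg _
    have h3 : (n : ℝ) ≤ (C₂ : ℝ) := by
      exact_mod_cast Nat.le_of_dvd (Nat.pos_of_ne_zero hC₂0) hn
    calc ((|Algebra.norm ℤ ξ| : ℤ) : ℝ) ^ 2 * (n : ℝ) ^ 3
        ≤ (2 * δ * (Ideal.absNorm J : ℝ)) ^ 2 * (C₂ : ℝ) ^ 3 := by
          gcongr
      _ = A * (Ideal.absNorm J : ℝ) ^ 2 := by rw [hA]; ring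
      _ ≤ (B ^ 2 * PN + A + 1) * (Ideal.absNorm J : ℝ) ^ 2 := by
          refine mul_le_mul_of_nonneg_right ?_ hNJ2
          have : (0 : ℝ) ≤ B ^ 2 * PN := by positivity
          linarith
  -- the main case
  obtain ⟨g, hgM, hgav⟩ := hav I hI M hM
  have hgI : g ∈ I := by rw [← hM]; exact Ideal.subset_span hgM
  have hnPN : ∃ k : ℕ, n ∣ PN ^ k := dvd_pow_of_primes PN n hn0 (fun p hp hpn =>
    Finset.dvd_prod_of_mem (fun p : ℕ => p) (hnS p hp hpn))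
  obtain ⟨k, hk⟩ := hnPN
  have hPk : ∃ q : ℕ, (P : 𝓞 K) ^ k = (n : 𝓞 K) * (q : 𝓞 K) := by
    obtain ⟨q, hq⟩ := hk
    refine ⟨q, ?_⟩
    have h3 : ((PN ^ k : ℕ) : 𝓞 K) = ((n * q : ℕ) : 𝓞 K) := congrArg (fun z : ℕ => (z : 𝓞 K)) hq
    rw [hPPN]
    push_cast at h3 ⊢
    exact h3
  obtain ⟨q, hq⟩ := hPk
  have hgen : ∀ y ∈ I, ∃ z : 𝓞 K, ∃ y' ∈ I, (H : 𝓞 K) * y = g * z + (n : 𝓞 K) * y' := by
    intro y hy
    obtain ⟨z, y', hy', hzy⟩ := mem_of_avoid K P hP0 h I hI g hgI hgav k y hy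
    refine ⟨z, (q : 𝓞 K) * y', I.mul_mem_left _ hy', ?_⟩
    have h1 : (H : 𝓞 K) = (P : 𝓞 K) ^ h := by
      rw [hH, hPPN]
      push_cast
      rfl
    rw [h1, hzy, hq]
    ring
  obtain ⟨s, hs0, hsS, hns, hsn⟩ := exists_sqrtS S hS n hn0 hnS
  obtain ⟨ηs, cs, r, ys, hysA, hηs, hcsD, hrP⟩ := levelA hR (Subring.closure ({v} : Set (𝓞 K)))
    P D hP0 hPD η c₀ v (Subring.subset_closure rfl) hη s hs0
    (fun p hp hps => hSP p (hsS p hp hps))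
  set v' : 𝓞 K := (r : 𝓞 K) * v + (P : 𝓞 K) * ys with hv'
  have hV : ∀ (c : ℤ) (x : 𝓞 K), ∃ (e : ℤ) (ρ ρ' : 𝓞 K),
      (C₁ : 𝓞 K) * x = (e : 𝓞 K) + (v' + (c : 𝓞 K)) * ρ + (n : 𝓞 K) * ρ' := by
    intro c x
    obtain ⟨b, hb, ρ, hbρ⟩ := genV P r hrP v ys hysA k _ (hfin x)
    obtain ⟨e, ρ₁, he⟩ := evalU _ c b hb
    refine ⟨e, ρ₁, (q : 𝓞 K) * ρ, ?_⟩
    rw [hbρ, he, hq]
    ring
  have hind := kOne I J M n hn0 H C₁ g v' hgM hgI hJM hnJ hmin hgen hV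
  have hDn : D.natAbs ≠ 0 := Int.natAbs_ne_zero.mpr hD
  obtain ⟨hidx0, hidx⟩ := index_LLJ K J hJ n hn0 C₂ hC₂0 g v' PN (D.natAbs * s) hPN0
    (mul_ne_zero hDn hs0) hind
  have hk' : (n : ℤ) ∣ P ^ k := by rw [hPPN]; exact_mod_cast hk
  -- `1 + PN c` is coprime to `n`
  have hcop1 : ∀ c : ℤ, IsCoprime (1 + P * c) (n : ℤ) := by
    intro c
    have h1 : IsCoprime (1 + P * c) P := ⟨1, -c, by ring⟩
    exact (h1.pow_right (n := k)).of_isCoprime_of_dvd_right hk'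
  have hcsn : IsCoprime cs (n : ℤ) := by
    have h1 : IsCoprime cs P := hcsD.of_isCoprime_of_dvd_right
      ((dvd_pow_self P two_ne_zero).trans hPD)
    exact (h1.pow_right (n := k)).of_isCoprime_of_dvd_right hk'
  have hDs : ((D.natAbs : ℕ) : 𝓞 K) = (D.sign : 𝓞 K) * (D : 𝓞 K) := UnitsA.cast_natAbs' D
  have hgΛ : g ∉ LLJ K J g v' PN (D.natAbs * s) := by
    rintro ⟨c, t, z, hz, hgz⟩
    have h1 : g * (((1 + P * (-c) : ℤ) : 𝓞 K) +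
        ((-(D.sign * D * (s : ℤ) * t) : ℤ) : 𝓞 K) * v') ∈ J := by
      have e1 : g * (((1 + P * (-c) : ℤ) : 𝓞 K) +
        ((-(D.sign * D * (s : ℤ) * t) : ℤ) : 𝓞 K) * v') = z := by
        rw [Nat.cast_mul, hDs] at hgz
        rw [hPPN]
        push_cast
        linear_combination hgz
      rw [e1]
      exact hz
    have h4 := (hind _ _ h1).1
    have h5 := hcop1 (-c)
    have h6 : (n : ℤ) ∣ (C₂ : ℤ) := h5.symm.dvd_of_dvd_mul_right h4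
    exact hn (by exact_mod_cast h6)
  obtain ⟨y, hyΛ, hy0, hyN⟩ := hcoset _ hidx0 g hgΛ
  obtain ⟨c, t, z, hz, hyz⟩ := hyΛ
  -- rewrite `y`
  set y₀ : 𝓞 K := g * (((1 + P * c : ℤ) : 𝓞 K) +
    (D : 𝓞 K) * (s : 𝓞 K) * ((D.sign * t : ℤ) : 𝓞 K) * v') with hy₀
  have hy : y = y₀ + z := by
    rw [hy₀]
    rw [Nat.cast_mul, hDs] at hyz
    rw [hPPN]
    push_cast
    linear_combination hyz
  have hy₀I : y₀ ∈ I := I.mul_mem_right _ hgI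
  obtain ⟨u, c', a, b, e, hfin'⟩ := KeyT.unit_part ηs cs D (D.sign * t) (1 + P * c) s n hn0 v' g
    y₀ 0 hηs hns hcsn (hcop1 c) (by rw [hy₀, mul_zero, add_zero])
  have huu : ((u⁻¹ : (𝓞 K)ˣ) : 𝓞 K) * (u : 𝓞 K) = 1 := Units.inv_mul u
  refine ⟨((u⁻¹ : (𝓞 K)ˣ) : 𝓞 K) * y, ?_, mul_ne_zero (Units.ne_zero _) hy0, ?_⟩
  · have h1 : ((u⁻¹ : (𝓞 K)ˣ) : 𝓞 K) * y = c' • g +
        ((n : 𝓞 K) * (((u⁻¹ : (𝓞 K)ˣ) : 𝓞 K) * (a * y₀ + e * g)) +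
          ((u⁻¹ : (𝓞 K)ˣ) : 𝓞 K) * z) := by
      rw [zsmul_eq_mul, hy]
      linear_combination ((u⁻¹ : (𝓞 K)ˣ) : 𝓞 K) * hfin' + (c' : 𝓞 K) * g * huu
    rw [h1]
    refine M.add_mem (M.zsmul_mem hgM c') (hJM _ (J.add_mem (hnJ _ (I.mul_mem_left _ ?_))
      (J.mul_mem_left _ hz)))
    exact I.add_mem (I.mul_mem_left _ hy₀I) (I.mul_mem_left _ hgI)
  · rw [map_mul, abs_mul]
    have h1 : IsUnit (Algebra.norm ℤ ((u⁻¹ : (𝓞 K)ˣ) : 𝓞 K)) := (Units.isUnit _).map _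
    rw [Int.isUnit_iff_abs_eq.mp h1, one_mul]
    set N : ℝ := ((|Algebra.norm ℤ y| : ℤ) : ℝ) with hN
    have h2 : N * (n : ℝ) ^ 2 ≤ B * ((Ideal.absNorm J : ℝ) * (s : ℝ)) := by
      have h3 : ((LLJ K J g v' PN (D.natAbs * s)).index : ℝ) * (n : ℝ) ^ 2 ≤
          (Ideal.absNorm J : ℝ) * (((C₂ : ℝ) * (PN : ℝ)) *
            ((C₂ : ℝ) * ((D.natAbs : ℝ) * (s : ℝ)))) := by
        exact_mod_cast hidx
      calc N * (n : ℝ) ^ 2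
          ≤ (C₀ * ((LLJ K J g v' PN (D.natAbs * s)).index : ℝ)) * (n : ℝ) ^ 2 := by gcongr
        _ = C₀ * (((LLJ K J g v' PN (D.natAbs * s)).index : ℝ) * (n : ℝ) ^ 2) := by ring
        _ ≤ C₀ * ((Ideal.absNorm J : ℝ) * (((C₂ : ℝ) * (PN : ℝ)) *
            ((C₂ : ℝ) * ((D.natAbs : ℝ) * (s : ℝ))))) :=
            mul_le_mul_of_nonneg_left h3 hC₀.le
        _ = B * ((Ideal.absNorm J : ℝ) * (s : ℝ)) := by rw [hB]; ring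
    have h4 : (0 : ℝ) ≤ N := by rw [hN]; exact_mod_cast abs_nonneg _
    have h5 : (s : ℝ) ^ 2 ≤ (PN : ℝ) * (n : ℝ) := by
      have := Nat.le_of_dvd (Nat.pos_of_ne_zero (mul_ne_zero hPN0 hn0)) hsn
      exact_mod_cast this
    have hnpos : (0 : ℝ) < (n : ℝ) := by exact_mod_cast Nat.pos_of_ne_zero hn0
    have h6 : (N ^ 2 * (n : ℝ) ^ 3) * (n : ℝ) ≤
        ((B ^ 2 * PN) * (Ideal.absNorm J : ℝ) ^ 2) * (n : ℝ) := by
      calc (N ^ 2 * (n : ℝ) ^ 3) * (n : ℝ) = (N * (n : ℝ) ^ 2) ^ 2 := by ring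
        _ ≤ (B * ((Ideal.absNorm J : ℝ) * (s : ℝ))) ^ 2 :=
            pow_le_pow_left₀ (by positivity) h2 2
        _ = (B ^ 2 * (Ideal.absNorm J : ℝ) ^ 2) * (s : ℝ) ^ 2 := by ring
        _ ≤ (B ^ 2 * (Ideal.absNorm J : ℝ) ^ 2) * ((PN : ℝ) * (n : ℝ)) :=
            mul_le_mul_of_nonneg_left h5 (by positivity)
        _ = _ := by ring
    calc N ^ 2 * (n : ℝ) ^ 3 ≤ (B ^ 2 * PN) * (Ideal.absNorm J : ℝ) ^ 2 :=
          le_of_mul_le_mul_right h6 hnpos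
      _ ≤ (B ^ 2 * PN + A + 1) * (Ideal.absNorm J : ℝ) ^ 2 := by
          refine mul_le_mul_of_nonneg_right ?_ hNJ2
          linarith

end Pool.Agent.MP_ca7d12_nt
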