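import Mathlib

set_option autoImplicit false

namespace Pool.Agent.MP_ca7d12_nt

/-- Minkowski's theorem on three real linear forms. (The proof is in `T/Mink.lean` for special
forms: copy it.) -/
theorem minkowski_forms (A : Matrix (Fin 3) (Fin 3) ℝ) (hA : A.det ≠ 0) (t : Fin 3 → ℝ)
    (ht : ∀ i, 0 < t i) (h : |A.det| < ∏ i, t i) :
    ∃ x : Fin 3 → ℤ, x ≠ 0 ∧ ∀ i, |∑ j, A i j * (x j : ℝ)| < t i := by
  classical
  obtain ⟨v, hv⟩ : ∃ v : Fin 3 → Fin 3 → ℝ, v = fun j i => A i j := ⟨_, rfl⟩
  have hvT : Matrix.of v = A.transpose := by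
    rw [hv]
    rfl
  have hvdet : (Matrix.of v).det = A.det := by rw [hvT, Matrix.det_transpose]
  have hvne : (Matrix.of v).det ≠ 0 := by rw [hvdet]; exact hA
  have hli : LinearIndependent ℝ v := Matrix.linearIndependent_rows_of_det_ne_zero hvne
  let bR : Module.Basis (Fin 3) ℝ (Fin 3 → ℝ) :=
    basisOfLinearIndependentOfCardEqFinrank hli (by simp)
  have hbR : (bR : Fin 3 → Fin 3 → ℝ) = v := coe_basisOfLinearIndependentOfCardEqFinrank hli _
  have fund := ZSpan.isAddFundamentalDomain' bR MeasureTheory.volume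
  have hvolF : MeasureTheory.volume (ZSpan.fundamentalDomain bR) = ENNReal.ofReal |A.det| := by
    rw [ZSpan.volume_fundamentalDomain, hbR, hvdet]
  set S : Set (Fin 3 → ℝ) := Set.pi Set.univ (fun i => Set.Ioo (-t i) (t i)) with hS
  have hvolS : MeasureTheory.volume S = ENNReal.ofReal (8 * ∏ i, t i) := by
    rw [hS, Real.volume_pi_Ioo, ← ENNReal.ofReal_prod_of_nonneg (fun i _ => by linarith [ht i])]
    congr 1
    simp only [Fin.prod_univ_three]
    ring
  have hcd : Countable (Submodule.span ℤ (Set.range bR)).toAddSubgroup := by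
    have : Countable (Submodule.span ℤ (Set.range bR)) := inferInstance
    exact this
  obtain ⟨x, hx0, hxS⟩ := MeasureTheory.exists_ne_zero_mem_lattice_of_measure_mul_two_pow_lt_measure
    (μ := MeasureTheory.volume) (s := S) fund
    (by
      intro x hx
      rw [hS, Set.mem_pi] at hx ⊢
      intro i hi
      have := hx i hi
      simp only [Set.mem_Ioo, Pi.neg_apply] at this ⊢
      constructor <;> linarith [this.1, this.2])
    (by
      rw [hS]
      exact convex_pi (fun i _ => convex_Ioo _ _))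
    (by
      rw [hvolF, hvolS]
      have h8 : (2 : ENNReal) ^ Module.finrank ℝ (Fin 3 → ℝ) = ENNReal.ofReal 8 := by
        simp only [Module.finrank_fintype_fun_eq_card, Fintype.card_fin]
        rw [show (8 : ℝ) = 2 ^ 3 by norm_num, ENNReal.ofReal_pow (by norm_num)]
        norm_num
      rw [h8, ← ENNReal.ofReal_mul (by positivity)]
      apply (ENNReal.ofReal_lt_ofReal_iff _).mpr
      · linarith
      · have : 0 < ∏ i, t i := Finset.prod_pos (fun i _ => ht i)
        positivity)
  have hxm' : ∀ y ∈ (Submodule.span ℤ (Set.range bR)).toAddSubgroup,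
      y ∈ Submodule.span ℤ (Set.range v) := by
    rw [hbR]
    intro y hy
    exact hy
  have hxm : (x : Fin 3 → ℝ) ∈ Submodule.span ℤ (Set.range v) := hxm' _ x.2
  obtain ⟨c, hc⟩ := (Submodule.mem_span_range_iff_exists_fun ℤ).1 hxm
  have hσξ : ∀ i, ∑ j, A i j * (c j : ℝ) = (x : Fin 3 → ℝ) i := by
    intro i
    rw [← hc, Finset.sum_apply]
    refine Finset.sum_congr rfl fun j _ => ?_
    rw [Pi.smul_apply, zsmul_eq_mul, hv, mul_comm]
  refine ⟨c, ?_, ?_⟩
  · intro h0
    apply hx0
    apply Subtype.ext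
    funext i
    rw [← hσξ i, h0]
    simp
  · intro i
    rw [hσξ i, abs_lt]
    have := hxS i (Set.mem_univ i)
    exact this

end Pool.Agent.MP_ca7d12_nt
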